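import Pool.Agent.Helper36.SSSExtract

/-! From a uniformly bounded supply of diagonalisable finite-rank operators to an M-basis. -/

set_option autoImplicit false

open Filter Topology

namespace Pool.Agent.Helper36

variable {E : Type*} [NormedAddCommGroup E] [NormedSpace ℝ E]

/-- `R` is annihilated by a polynomial with distinct real roots. -/
def IsDiag (R : E →L[ℝ] E) : Prop :=
  ∃ r : Finset ℝ, Polynomial.aeval R (Lagrange.nodal r (id : ℝ → ℝ)) = 0

theorem aeval_mul_of_eigen {A : Type*} [Ring A] [Algebra ℝ A] (R P : A) (a : ℝ)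
    (h : R * P = a • P) (p : Polynomial ℝ) : Polynomial.aeval R p * P = p.eval a • P := by
  have hpow : ∀ n : ℕ, R ^ n * P = a ^ n • P := by
    intro n
    induction n with
    | zero => simp
    | succ n ih => rw [pow_succ, mul_assoc, h, mul_smul_comm, ih, smul_smul, pow_succ, mul_comm]
  induction p using Polynomial.induction_on' with
  | add p q hp hq => rw [map_add, add_mul, hp, hq, Polynomial.eval_add, add_smul]
  | monomial n c =>
    rw [Polynomial.aeval_monomial, mul_assoc, hpow, Polynomial.eval_monomial, mul_smul_comm,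
      ← Algebra.smul_def, smul_smul, mul_comm]

theorem mul_aeval_of_eigen {A : Type*} [Ring A] [Algebra ℝ A] (R P : A) (a : ℝ)
    (h : P * R = a • P) (p : Polynomial ℝ) : P * Polynomial.aeval R p = p.eval a • P := by
  have hpow : ∀ n : ℕ, P * R ^ n = a ^ n • P := by
    intro n
    induction n with
    | zero => simp
    | succ n ih => rw [pow_succ, ← mul_assoc, ih, smul_mul_assoc, h, smul_smul, pow_succ]
  induction p using Polynomial.induction_on' with
  | add p q hp hq => rw [map_add, mul_add, hp, hq, Polynomial.eval_add, add_smul]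
  | monomial n c =>
    rw [Polynomial.aeval_monomial, ← mul_assoc, ← Algebra.commutes c P, mul_assoc, hpow,
      Polynomial.eval_monomial, ← Algebra.smul_def, smul_smul]

theorem IsDiag.spectral {R : E →L[ℝ] E} (hR : IsDiag R) :
    ∃ (r : Finset ℝ) (F : ℝ → (E →L[ℝ] E)), 0 ∈ r ∧ 1 ∈ r ∧ (∑ a ∈ r, F a = 1) ∧
      (∀ a ∈ r, ∀ b ∈ r, F a * F b = if a = b then F a else 0) ∧
      (∀ a ∈ r, R * F a = a • F a) ∧ (∀ a ∈ r, F a * R = a • F a) ∧
      (∀ P, R * P = P → ∀ a ∈ r, F a * P = if a = 1 then P else 0) ∧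
      (∀ P, P * R = P → ∀ a ∈ r, P * F a = if a = 1 then P else 0) := by
  classical
  obtain ⟨r0, hr0⟩ := hR
  obtain ⟨r, hr0r, h0, h1⟩ : ∃ r : Finset ℝ, r0 ⊆ r ∧ 0 ∈ r ∧ 1 ∈ r :=
    ⟨insert 0 (insert 1 r0), fun x hx => Finset.mem_insert_of_mem (Finset.mem_insert_of_mem hx),
      Finset.mem_insert_self _ _, Finset.mem_insert_of_mem (Finset.mem_insert_self _ _)⟩
  have hr : Polynomial.aeval R (Lagrange.nodal r (id : ℝ → ℝ)) = 0 := by
    have hdvd : Lagrange.nodal r0 (id : ℝ → ℝ) ∣ Lagrange.nodal r (id : ℝ → ℝ) :=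
      Finset.prod_dvd_prod_of_subset _ _ _ hr0r
    obtain ⟨q, hq⟩ := hdvd
    rw [hq, map_mul, hr0, zero_mul]
  have hinj : Set.InjOn (id : ℝ → ℝ) r := Function.injective_id.injOn
  have hne : r.Nonempty := ⟨0, h0⟩
  let F : ℝ → (E →L[ℝ] E) := fun a => Polynomial.aeval R (Lagrange.basis r (id : ℝ → ℝ) a)
  have hcomm : ∀ a, R * F a = F a * R := by
    intro a
    calc R * F a = Polynomial.aeval R (Polynomial.X : Polynomial ℝ)
          * Polynomial.aeval R (Lagrange.basis r (id : ℝ → ℝ) a) := by rw [Polynomial.aeval_X]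
      _ = Polynomial.aeval R (Lagrange.basis r (id : ℝ → ℝ) a)
          * Polynomial.aeval R (Polynomial.X : Polynomial ℝ) := by
        rw [← map_mul, mul_comm, map_mul]
      _ = F a * R := by rw [Polynomial.aeval_X]
  have hRF : ∀ a ∈ r, R * F a = a • F a := by
    intro a ha
    have e1 : (Polynomial.X - Polynomial.C a) * Lagrange.basis r (id : ℝ → ℝ) a
        = Polynomial.C (Lagrange.nodalWeight r (id : ℝ → ℝ) a) * Lagrange.nodal r (id : ℝ → ℝ) := by
      rw [Lagrange.basis_eq_prod_sub_inv_mul_nodal_div ha, ← Lagrange.nodal_erase_eq_nodal_div ha,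
        Lagrange.nodal_eq_mul_nodal_erase ha]
      simp only [id]
      ring
    have e2 := congrArg (Polynomial.aeval R) e1
    rw [map_mul, map_mul, hr, mul_zero, map_sub, Polynomial.aeval_X, Polynomial.aeval_C, sub_mul,
      ← Algebra.smul_def] at e2
    exact sub_eq_zero.1 e2
  have hFR : ∀ a ∈ r, F a * R = a • F a := fun a ha => by rw [← hcomm, hRF a ha]
  refine ⟨r, F, h0, h1, ?_, ?_, hRF, hFR, ?_, ?_⟩
  · change ∑ a ∈ r, Polynomial.aeval R (Lagrange.basis r (id : ℝ → ℝ) a) = 1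
    rw [← map_sum, Lagrange.sum_basis hinj hne, map_one]
  · intro a ha b hb
    change Polynomial.aeval R (Lagrange.basis r (id : ℝ → ℝ) a) * F b = _
    rw [aeval_mul_of_eigen R (F b) b (hRF b hb)]
    by_cases hab : a = b
    · subst hab
      have := Lagrange.eval_basis_self hinj ha
      simp only [id] at this
      rw [if_pos rfl, this, one_smul]
    · have := Lagrange.eval_basis_of_ne (v := (id : ℝ → ℝ)) (s := r) hab hb
      simp only [id] at this
      rw [if_neg hab, this, zero_smul]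
  · intro P hP a ha
    change Polynomial.aeval R (Lagrange.basis r (id : ℝ → ℝ) a) * P = _
    rw [aeval_mul_of_eigen R P 1 (by rw [hP, one_smul])]
    by_cases hab : a = 1
    · subst hab
      have := Lagrange.eval_basis_self hinj ha
      simp only [id] at this
      rw [if_pos rfl, this, one_smul]
    · have := Lagrange.eval_basis_of_ne (v := (id : ℝ → ℝ)) (s := r) hab h1
      simp only [id] at this
      rw [if_neg hab, this, zero_smul]
  · intro P hP a ha
    change P * Polynomial.aeval R (Lagrange.basis r (id : ℝ → ℝ) a) = _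
    rw [mul_aeval_of_eigen R P 1 (by rw [hP, one_smul])]
    by_cases hab : a = 1
    · subst hab
      have := Lagrange.eval_basis_self hinj ha
      simp only [id] at this
      rw [if_pos rfl, this, one_smul]
    · have := Lagrange.eval_basis_of_ne (v := (id : ℝ → ℝ)) (s := r) hab h1
      simp only [id] at this
      rw [if_neg hab, this, zero_smul]

/-- The supply property: every finite-rank projection is dominated by a diagonalisable finite-rank
operator of norm at most `C`. -/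
def Supply (E : Type*) [NormedAddCommGroup E] [NormedSpace ℝ E] (C : ℝ) : Prop :=
  ∀ P : E →L[ℝ] E, P * P = P → FR P →
    ∃ R : E →L[ℝ] E, FR R ∧ ‖R‖ ≤ C ∧ R * P = P ∧ P * R = P ∧ IsDiag R

theorem isDiag_zero : IsDiag (0 : E →L[ℝ] E) := ⟨{0}, by simp [Lagrange.nodal]⟩

theorem exists_seq {C : ℝ} (hC : 0 ≤ C) (hS : Supply E C) (d : ℕ → E)
    (v : ℕ → StrongDual ℝ E) :
    ∃ R : ℕ → (E →L[ℝ] E), R 0 = 0 ∧ (∀ n, FR (R n)) ∧ (∀ n, ‖R n‖ ≤ C) ∧ (∀ n, IsDiag (R n)) ∧
      (∀ n, R (n + 1) * R n = R n) ∧ (∀ n, R n * R (n + 1) = R n) ∧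
      (∀ n k, k ≤ n → R (n + 1) (d k) = d k) ∧ (∀ n k, k ≤ n → v k ∘L R (n + 1) = v k) := by
  classical
  have step : ∀ (n : ℕ) (R : {R : E →L[ℝ] E // FR R}), ∃ R' : {R : E →L[ℝ] E // FR R},
      ‖R'.1‖ ≤ C ∧ IsDiag R'.1 ∧ R'.1 * R.1 = R.1 ∧ R.1 * R'.1 = R.1 ∧
      (∀ k, k ≤ n → R'.1 (d k) = d k) ∧ (∀ k, k ≤ n → v k ∘L R'.1 = v k) := by
    rintro n ⟨R, hR⟩
    obtain ⟨P, hP2, hPF, hPR, hRP, hPd, hPv⟩ := exists_proj' hR (d '' (Set.Iic n))
      ((Set.finite_Iic n).image d) (v '' (Set.Iic n)) ((Set.finite_Iic n).image v)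
    obtain ⟨R', hR'F, hR'C, hR'P, hPR', hR'D⟩ := hS P hP2 hPF
    refine ⟨⟨R', hR'F⟩, hR'C, hR'D, ?_, ?_, ?_, ?_⟩
    · change R' * R = R
      calc R' * R = R' * (P * R) := by rw [hPR]
        _ = R := by rw [← mul_assoc, hR'P, hPR]
    · change R * R' = R
      calc R * R' = (R * P) * R' := by rw [hRP]
        _ = R := by rw [mul_assoc, hPR', hRP]
    · intro k hk
      have h1 : P (d k) = d k := hPd _ ⟨k, hk, rfl⟩
      calc R' (d k) = (R' * P) (d k) := by rw [mul_apply_eq_comp, h1]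
        _ = d k := by rw [hR'P, h1]
    · intro k hk
      have h1 : v k ∘L P = v k := hPv _ ⟨k, hk, rfl⟩
      calc v k ∘L R' = (v k ∘L P) ∘L R' := by rw [h1]
        _ = v k ∘L (P * R') := rfl
        _ = v k := by rw [hPR', h1]
  choose F hF1 hF2 hF3 hF4 hF5 hF6 using step
  let s : ℕ → {R : E →L[ℝ] E // FR R} := fun n => Nat.rec ⟨0, FR.zero⟩ (fun n R => F n R) n
  have hs0 : (s 0).1 = 0 := rfl
  have hs : ∀ n, s (n + 1) = F n (s n) := fun n => rfl
  refine ⟨fun n => (s n).1, hs0, fun n => (s n).2, ?_, ?_, ?_, ?_, ?_, ?_⟩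
  · intro n
    cases n with
    | zero => change ‖(s 0).1‖ ≤ C; rw [hs0]; simpa using hC
    | succ n => exact hF1 _ _
  · intro n
    cases n with
    | zero => change IsDiag (s 0).1; rw [hs0]; exact isDiag_zero
    | succ n => exact hF2 _ _
  · intro n; exact hF3 _ _
  · intro n; exact hF4 _ _
  · intro n k hk; exact hF5 _ _ k hk
  · intro n k hk; exact hF6 _ _ k hk

theorem mbasis_of_supply (hinf : ¬ FiniteDimensional ℝ E) [TopologicalSpace.SeparableSpace E]
    {C : ℝ} (hC : 0 ≤ C) (hS : Supply E C) (V : Submodule ℝ (StrongDual ℝ E))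
    (hV : TopologicalSpace.IsSeparable (V : Set (StrongDual ℝ E))) :
    ∃ (x : ℕ → E) (f : ℕ → StrongDual ℝ E), IsMBasis x f ∧ StronglySeriesSummable x f ∧
      V ≤ (Submodule.span ℝ (Set.range f)).topologicalClosure := by
  classical
  obtain ⟨v, hv⟩ : ∃ v : ℕ → StrongDual ℝ E, (V : Set (StrongDual ℝ E)) ⊆ closure (Set.range v) := by
    obtain ⟨c, hc, hVc⟩ := hV
    obtain ⟨v, hv⟩ := (hc.insert (0 : StrongDual ℝ E)).exists_eq_range (Set.insert_nonempty _ _)
    exact ⟨v, hVc.trans (closure_mono (hv ▸ Set.subset_insert _ _))⟩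
  let d : ℕ → E := TopologicalSpace.denseSeq E
  obtain ⟨R, hR0, hRF, hRC, hRD, hR1, hR2, hRd, hRv⟩ := exists_seq hC hS d v
  choose r F h0 h1 hsum hFF hRFa hFaR hFP hPF using fun n => (hRD n).spectral
  let Q : ℕ → (E →L[ℝ] E) := fun n => 1 - F n 0
  let S' : ℕ → (E →L[ℝ] E) := fun n => ∑ a ∈ (r n).erase 0, a⁻¹ • F n a
  have hQsum : ∀ n, Q n = ∑ a ∈ (r n).erase 0, F n a := by
    intro n
    have := Finset.add_sum_erase (r n) (F n) (h0 n)
    rw [hsum] at this
    simp only [Q]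
    rw [← this]; abel
  have hQ1 : ∀ n, Q n = R n * S' n := by
    intro n
    simp only [S', Finset.mul_sum, hQsum]
    refine Finset.sum_congr rfl fun a ha => ?_
    rw [Finset.mem_erase] at ha
    rw [mul_smul_comm, hRFa n a ha.2, smul_smul, inv_mul_cancel₀ ha.1, one_smul]
  have hQ2 : ∀ n, Q n = S' n * R n := by
    intro n
    simp only [S', Finset.sum_mul, hQsum]
    refine Finset.sum_congr rfl fun a ha => ?_
    rw [Finset.mem_erase] at ha
    rw [smul_mul_assoc, hFaR n a ha.2, smul_smul, inv_mul_cancel₀ ha.1, one_smul]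
  have hRQ : ∀ n, R (n + 1) * Q n = Q n := by
    intro n; rw [hQ1, ← mul_assoc, hR1]
  have hQR : ∀ n, Q n * R (n + 1) = Q n := by
    intro n; rw [hQ2, mul_assoc, hR2]
  have hFQ : ∀ n, ∀ a ∈ r (n + 1), F (n + 1) a * Q n = if a = 1 then Q n else 0 :=
    fun n a ha => hFP (n + 1) (Q n) (hRQ n) a ha
  have hQF : ∀ n, ∀ a ∈ r (n + 1), Q n * F (n + 1) a = if a = 1 then Q n else 0 :=
    fun n a ha => hPF (n + 1) (Q n) (hQR n) a ha
  have hQQ : ∀ n, Q n * Q n = Q n := by
    intro n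
    simp only [Q]
    have := hFF n 0 (h0 n) 0 (h0 n)
    rw [if_pos rfl] at this
    rw [mul_sub, mul_one, sub_mul, one_mul, this]; abel
  have hQs1 : ∀ n, Q (n + 1) * Q n = Q n := by
    intro n
    change (1 - F (n + 1) 0) * Q n = Q n
    rw [sub_mul, one_mul, hFQ n 0 (h0 _), if_neg (by norm_num), sub_zero]
  have hQs2 : ∀ n, Q n * Q (n + 1) = Q n := by
    intro n
    change Q n * (1 - F (n + 1) 0) = Q n
    rw [mul_sub, mul_one, hQF n 0 (h0 _), if_neg (by norm_num), sub_zero]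
  have hQm : ∀ m k, Q m * Q (m + k) = Q m ∧ Q (m + k) * Q m = Q m := by
    intro m k
    induction k with
    | zero => exact ⟨hQQ m, hQQ m⟩
    | succ k ih =>
      constructor
      · calc Q m * Q (m + (k + 1)) = (Q m * Q (m + k)) * Q (m + k + 1) := by rw [ih.1]; rfl
          _ = Q m := by rw [mul_assoc, hQs2, ih.1]
      · calc Q (m + (k + 1)) * Q m = Q (m + k + 1) * (Q (m + k) * Q m) := by rw [ih.2]; rfl
          _ = Q m := by rw [← mul_assoc, hQs1, ih.2]
  have hQ0 : Q 0 = 0 := by rw [hQ1, hR0, zero_mul]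
  -- the blocks
  let I : Type := Σ n : ℕ, ((r (n + 1)).erase 0 : Finset ℝ)
  let D : I → (E →L[ℝ] E) := fun i => F (i.1 + 1) i.2.1 * (1 - Q i.1)
  have hmem : ∀ i : I, i.2.1 ∈ r (i.1 + 1) := fun i => Finset.mem_of_mem_erase i.2.2
  have hne0 : ∀ i : I, i.2.1 ≠ 0 := fun i => Finset.ne_of_mem_erase i.2.2
  have hDcomm : ∀ i : I, D i = (1 - Q i.1) * F (i.1 + 1) i.2.1 := by
    intro i
    simp only [D]
    rw [mul_sub, sub_mul, one_mul, mul_one, hFQ _ _ (hmem i), hQF _ _ (hmem i)]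
  have hQc : ∀ n, (1 - Q n) * (1 - Q n) = 1 - Q n := by
    intro n
    rw [mul_sub, mul_one, sub_mul, one_mul, hQQ]; abel
  have hDQ : ∀ i : I, D i * Q (i.1 + 1) = D i := by
    intro i
    rw [hDcomm, mul_assoc]
    congr 1
    change F (i.1 + 1) i.2.1 * (1 - F (i.1 + 1) 0) = _
    rw [mul_sub, mul_one, hFF _ _ (hmem i) _ (h0 _), if_neg (hne0 i), sub_zero]
  have hQD : ∀ i : I, Q (i.1 + 1) * D i = D i := by
    intro i
    simp only [D]
    rw [← mul_assoc]
    congr 1
    change (1 - F (i.1 + 1) 0) * F (i.1 + 1) i.2.1 = _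
    rw [sub_mul, one_mul, hFF _ _ (h0 _) _ (hmem i), if_neg (hne0 i).symm, sub_zero]
  have hDD' : ∀ i j : I, i.1 < j.1 → D i * D j = 0 ∧ D j * D i = 0 := by
    intro i j hij
    obtain ⟨k, hk⟩ := Nat.exists_eq_add_of_lt hij
    have hk' : j.1 = i.1 + 1 + k := by omega
    have e1 : Q (i.1 + 1) * (1 - Q j.1) = 0 := by
      rw [hk', mul_sub, mul_one, (hQm (i.1 + 1) k).1, sub_self]
    have e2 : (1 - Q j.1) * Q (i.1 + 1) = 0 := by
      rw [hk', sub_mul, one_mul, (hQm (i.1 + 1) k).2, sub_self]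
    constructor
    · rw [← hDQ i, hDcomm j, mul_assoc, ← mul_assoc (Q (i.1 + 1)), e1, zero_mul, mul_zero]
    · rw [← hQD i]
      simp only [D]
      rw [mul_assoc, ← mul_assoc (1 - Q j.1), e2, zero_mul, mul_zero]
  have hDD : ∀ i j : I, i ≠ j → D i * D j = 0 := by
    rintro ⟨n, a⟩ ⟨m, b⟩ hij
    rcases lt_trichotomy n m with h | h | h
    · exact (hDD' ⟨n, a⟩ ⟨m, b⟩ h).1
    · subst h
      have hab : a.1 ≠ b.1 := by
        intro hab
        apply hij
        have : a = b := Subtype.ext hab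
        rw [this]
      rw [hDcomm ⟨n, a⟩]
      simp only [D]
      rw [mul_assoc, ← mul_assoc (F (n + 1) a.1), hFF _ _ (hmem ⟨n, a⟩) _ (hmem ⟨n, b⟩), if_neg hab,
        zero_mul, mul_zero]
    · exact (hDD' ⟨m, b⟩ ⟨n, a⟩ h).2
  have hD2 : ∀ i : I, D i * D i = D i := by
    intro i
    have e1 : F (i.1 + 1) i.2.1 * (1 - Q i.1) = (1 - Q i.1) * F (i.1 + 1) i.2.1 := hDcomm i
    have e2 : F (i.1 + 1) i.2.1 * F (i.1 + 1) i.2.1 = F (i.1 + 1) i.2.1 := by
      rw [hFF _ _ (hmem i) _ (hmem i), if_pos rfl]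
    calc D i * D i = F (i.1 + 1) i.2.1 * ((1 - Q i.1) * F (i.1 + 1) i.2.1) * (1 - Q i.1) := by
          simp only [D, mul_assoc]
      _ = (F (i.1 + 1) i.2.1 * F (i.1 + 1) i.2.1) * ((1 - Q i.1) * (1 - Q i.1)) := by
          rw [← e1]; simp only [mul_assoc]
      _ = D i := by rw [e2, hQc]
  have hDF : ∀ i : I, FR (D i) := by
    intro i
    have e1 : F (i.1 + 1) i.2.1 = (i.2.1)⁻¹ • (R (i.1 + 1) * F (i.1 + 1) i.2.1) := by
      rw [hRFa _ _ (hmem i), smul_smul, inv_mul_cancel₀ (hne0 i), one_smul]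
    have e2 : FR (F (i.1 + 1) i.2.1) := by
      rw [e1]; exact ((hRF _).mul_left _).smul _
    exact e2.mul_left _
  have hinst : Countable I := inferInstance
  -- coefficients
  let c : ℕ → I → ℝ := fun n i => if i.1 < n then 1 else i.2.1
  let S : ℕ → Finset I := fun n => (Finset.range (n + 1)).sigma fun m => Finset.univ
  have hblock1 : ∀ m, ∑ a ∈ (r (m + 1)).erase 0, F (m + 1) a * (1 - Q m) = Q (m + 1) - Q m := by
    intro m
    rw [← Finset.sum_mul, ← hQsum, mul_sub, mul_one, hQs1]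
  have hRsum : ∀ m, ∑ a ∈ (r m).erase 0, a • F m a = R m := by
    intro m
    have e1 : ∑ a ∈ r m, a • F m a = R m := by
      calc ∑ a ∈ r m, a • F m a = ∑ a ∈ r m, R m * F m a :=
            Finset.sum_congr rfl fun a ha => (hRFa m a ha).symm
        _ = R m := by rw [← Finset.mul_sum, hsum, mul_one]
    rw [← Finset.add_sum_erase (r m) (fun a => a • F m a) (h0 m), zero_smul, zero_add] at e1
    exact e1
  have hblock2 : ∀ m, ∑ a ∈ (r (m + 1)).erase 0, a • (F (m + 1) a * (1 - Q m))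
      = R (m + 1) - Q m := by
    intro m
    have : ∀ a, a • (F (m + 1) a * (1 - Q m)) = (a • F (m + 1) a) * (1 - Q m) := fun a => by
      rw [smul_mul_assoc]
    simp only [this]
    rw [← Finset.sum_mul, hRsum, mul_sub, mul_one, hRQ]
  have hkey : ∀ n, ∑ i ∈ S n, c n i • D i = R (n + 1) := by
    intro n
    simp only [S]
    rw [Finset.sum_sigma, Finset.sum_range_succ]
    have e1 : ∀ m ∈ Finset.range n, (∑ a : ((r (m + 1)).erase 0 : Finset ℝ), c n ⟨m, a⟩ • D ⟨m, a⟩)
        = Q (m + 1) - Q m := by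
      intro m hm
      rw [Finset.mem_range] at hm
      rw [← hblock1, ← Finset.sum_coe_sort ((r (m + 1)).erase 0)
        (fun a => F (m + 1) a * (1 - Q m))]
      refine Finset.sum_congr rfl fun a _ => ?_
      simp only [c, D, hm, if_true, one_smul]
    have e2 : (∑ a : ((r (n + 1)).erase 0 : Finset ℝ), c n ⟨n, a⟩ • D ⟨n, a⟩)
        = R (n + 1) - Q n := by
      rw [← hblock2, ← Finset.sum_coe_sort ((r (n + 1)).erase 0)
        (fun a => a • (F (n + 1) a * (1 - Q n)))]
      refine Finset.sum_congr rfl fun a _ => ?_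
      simp only [c, D, lt_irrefl, if_false]
    rw [Finset.sum_congr rfl e1, e2, Finset.sum_range_sub, hQ0, sub_zero]
    abel
  have hlim : ∀ y : E, Tendsto (fun n => ∑ i ∈ S n, c n i • D i y) atTop (𝓝 y) := by
    intro y
    have e1 : (fun n => ∑ i ∈ S n, c n i • D i y) = fun n => R (n + 1) y := by
      funext n
      rw [← hkey n]
      simp
    rw [e1, Metric.tendsto_atTop]
    intro ε hε
    have hdense : DenseRange d := TopologicalSpace.denseRange_denseSeq E
    obtain ⟨k, hk⟩ := Metric.denseRange_iff.1 hdense y (ε / (C + 2)) (by positivity)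
    refine ⟨k, fun n hn => ?_⟩
    rw [dist_eq_norm] at hk ⊢
    have e2 : R (n + 1) y - y = R (n + 1) (y - d k) - (y - d k) := by
      rw [map_sub, hRd n k hn]; abel
    rw [e2]
    calc ‖R (n + 1) (y - d k) - (y - d k)‖ ≤ ‖R (n + 1) (y - d k)‖ + ‖y - d k‖ := norm_sub_le _ _
      _ ≤ C * ‖y - d k‖ + ‖y - d k‖ := by
        gcongr
        exact ((R (n + 1)).le_opNorm _).trans (by gcongr; exact hRC _)
      _ = (C + 1) * ‖y - d k‖ := by ring
      _ ≤ (C + 1) * (ε / (C + 2)) := by gcongr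
      _ < ε := by
        rw [mul_div_assoc', div_lt_iff₀ (by positivity)]
        nlinarith
  obtain ⟨x, f, hxf, hsss, hspan⟩ := exists_mbasis hinf D hDF hD2 hDD c S hlim
  refine ⟨x, f, hxf, hsss, ?_⟩
  intro w hw
  have e3 : Set.range v ⊆ (Submodule.span ℝ (Set.range f) : Set (StrongDual ℝ E)) := by
    rintro _ ⟨k, rfl⟩
    have := hspan k (v k)
    rw [hkey, hRv k k le_rfl] at this
    exact this
  exact closure_mono e3 (hv hw)

end Pool.Agent.Helper36
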