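import Mathlib

/-!
Definitions for the problem of strongly series summable M-bases (MP_f4d175_an).
All Banach spaces are real.
-/

set_option autoImplicit false

open Filter Topology

namespace Pool.Agent.Helper36

/-- The bounded approximation property of a real normed space `X`: for some `lam`, for every compact
set `Q` and every `ε > 0` some finite-rank operator of norm at most `lam` moves the points of `Q`
by less than `ε`. -/
def HasBAP (X : Type*) [NormedAddCommGroup X] [NormedSpace ℝ X] : Prop :=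
  ∃ lam : ℝ, 1 ≤ lam ∧ ∀ Q : Set X, IsCompact Q → ∀ ε : ℝ, 0 < ε →
    ∃ u : X →L[ℝ] X, FiniteDimensional ℝ (LinearMap.range (u : X →ₗ[ℝ] X)) ∧
      ‖u‖ ≤ lam ∧ ∀ x ∈ Q, ‖u x - x‖ < ε

/-- `x` with `f` is an M-basis of `E`: biorthogonal, with dense linear span, and `f` total. -/
def IsMBasis {E : Type*} [NormedAddCommGroup E] [NormedSpace ℝ E]
    (x : ℕ → E) (f : ℕ → StrongDual ℝ E) : Prop :=
  (∀ i j, f i (x j) = if i = j then 1 else 0) ∧
  (Submodule.span ℝ (Set.range x)).topologicalClosure = ⊤ ∧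
  ∀ y : E, (∀ n, f n y = 0) → y = 0

/-- The system `(x, f)` is strongly series summable: some triangular matrix `c` sums it. -/
def StronglySeriesSummable {E : Type*} [NormedAddCommGroup E] [NormedSpace ℝ E]
    (x : ℕ → E) (f : ℕ → StrongDual ℝ E) : Prop :=
  ∃ c : ℕ → ℕ → ℝ, (∀ n i, n < i → c n i = 0) ∧
    ∀ y : E, Tendsto (fun n => ∑ i ∈ Finset.range (n + 1), (c n i * f i y) • x i) atTop (𝓝 y)

/-- `X` contains the spaces `ℓ_∞^n` uniformly. -/
def ContainsLinftyUniformly (X : Type*) [NormedAddCommGroup X] [NormedSpace ℝ X] : Prop :=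
  ∃ K : ℝ, ∀ n : ℕ, ∃ z : Fin n → X, ∀ a : Fin n → ℝ,
    ‖∑ i, a i • z i‖ ≤ K * ‖a‖ ∧ ‖a‖ ≤ K * ‖∑ i, a i • z i‖

/-- `X` contains, for every `n`, a `K`-complemented `n`-dimensional subspace with a `K`-symmetric
basis, expressed by the norm of the signed permutation operators on the whole space. -/
def ContainsComplementedSymmetric (X : Type*) [NormedAddCommGroup X] [NormedSpace ℝ X] : Prop :=
  ∃ K : ℝ, ∀ n : ℕ, ∃ (x : Fin n → X) (f : Fin n → StrongDual ℝ X),
    (∀ i j, f i (x j) = if i = j then 1 else 0) ∧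
    ∀ (p : Equiv.Perm (Fin n)) (e : Fin n → ℝ), (∀ i, |e i| ≤ 1) →
      ∀ y : X, ‖∑ i, (e i * f i y) • x (p i)‖ ≤ K * ‖y‖

end Pool.Agent.Helper36
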