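import Pool.Agent.Helper36.SSSBuild

/-! The long-shift dilation: from a finite-rank operator to a diagonalisable one. -/

set_option autoImplicit false

open Filter Topology

namespace Pool.Agent.Helper36

/-- Abstract algebraic part.  `R'` acts on `Z j` like a triangular shift. -/
theorem nodal_annihilates {A : Type*} [Ring A] [Algebra ℝ A] (R : A) (M : ℕ) (δ : ℕ → ℝ)
    (Z : ℕ → A) (hZ : Z (M + 1) = 0)
    (hRZ : ∀ j, j ≤ M → R * Z j = Z (j + 1) + δ j • Z j) (j : ℕ) (hj : j ≤ M + 1) :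
    Polynomial.aeval R (∏ i ∈ Finset.range (M + 1), (Polynomial.X - Polynomial.C (δ i))) * Z j
      = 0 := by
  -- downward induction
  have key : ∀ k, k ≤ M + 1 → Polynomial.aeval R
      (∏ i ∈ Finset.Ico (M + 1 - k) (M + 1), (Polynomial.X - Polynomial.C (δ i)))
        * Z (M + 1 - k) = 0 := by
    intro k
    induction k with
    | zero => intro _; simp [hZ]
    | succ k ih =>
      intro hk
      have ih' := ih (by omega)
      have e1 : M + 1 - k = (M + 1 - (k + 1)) + 1 := by omega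
      set j := M + 1 - (k + 1) with hjdef
      rw [e1] at ih'
      have hjM : j < M + 1 := by omega
      rw [Finset.prod_eq_prod_Ico_succ_bot hjM, mul_comm, map_mul, mul_assoc]
      have e2 : (Polynomial.aeval R) (Polynomial.X - Polynomial.C (δ j)) * Z j = Z (j + 1) := by
        rw [map_sub, Polynomial.aeval_X, Polynomial.aeval_C, sub_mul, hRZ j (by omega),
          ← Algebra.smul_def]
        abel
      rw [e2, ih']
  have hk := key (M + 1 - j) (by omega)
  have e3 : M + 1 - (M + 1 - j) = j := by omega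
  rw [e3] at hk
  have hsplit : ∏ i ∈ Finset.range (M + 1), (Polynomial.X - Polynomial.C (δ i))
      = (∏ i ∈ Finset.range j, (Polynomial.X - Polynomial.C (δ i))) *
        ∏ i ∈ Finset.Ico j (M + 1), (Polynomial.X - Polynomial.C (δ i)) := by
    rw [Finset.prod_range_mul_prod_Ico _ hj]
  rw [hsplit, map_mul, mul_assoc, hk, mul_zero]

/-- The data of the dilation, in an abstract real algebra `A`. -/
structure DilData (A : Type*) [Ring A] [Algebra ℝ A] where
  /-- number of links -/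
  M : ℕ
  /-- coupling -/
  c : ℝ
  /-- weight -/
  w : ℝ
  /-- perturbation of the diagonal -/
  δ : ℕ → ℝ
  /-- the projection onto the base space -/
  B : A
  /-- the operator -/
  T : A
  /-- injections -/
  e : ℕ → A
  /-- coordinates -/
  ε : ℕ → A

namespace DilData

variable {A : Type*} [Ring A] [Algebra ℝ A] (d : DilData A)

/-- interpolation weights -/
noncomputable def s (k : ℕ) : ℝ := 1 - (k : ℝ) / d.M

/-- the vectors `Z` -/
noncomputable def Z : ℕ → A
  | 0 => d.B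
  | k + 1 => (d.c * d.w ^ k) • d.e k + d.s k • (Z k * d.T)

/-- the normalised vectors `Ek` -/
noncomputable def Ek (k : ℕ) : A := (d.c * d.w ^ k)⁻¹ • d.Z (k + 1)

/-- shift part -/
noncomputable def shift : A := ∑ k ∈ Finset.range d.M, d.e (k + 1) * d.ε k

/-- error part -/
noncomputable def err : A := ∑ k ∈ Finset.range d.M, d.Ek k * d.T * d.ε k

/-- perturbation part -/
noncomputable def pert : A :=
  d.δ 0 • d.B + ∑ k ∈ Finset.range d.M,
    (d.c * d.w ^ k)⁻¹ • ((d.δ (k + 1) • d.Z (k + 1) - (d.s k * d.δ k) • (d.Z k * d.T)) * d.ε k)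

/-- the dilated operator -/
noncomputable def R : A :=
  d.T + d.c • d.e 0 + d.w • d.shift - (d.M : ℝ)⁻¹ • d.err + d.pert

/-- the relations -/
structure Rel : Prop where
  hM : 0 < d.M
  hc : d.c ≠ 0
  hw : d.w ≠ 0
  BB : d.B * d.B = d.B
  TB : d.T * d.B = d.T
  BT : d.B * d.T = d.T
  eB : ∀ k, d.e k * d.B = d.e k
  Be : ∀ k, d.B * d.e k = 0
  εB : ∀ k, d.ε k * d.B = 0
  Bε : ∀ k, d.B * d.ε k = d.ε k
  e0 : ∀ k, d.M ≤ k → d.e k = 0
  εe : ∀ k l, d.ε k * d.e l = if k = l ∧ k < d.M then d.B else 0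

variable {d}

theorem Rel.ZB (h : d.Rel) (k : ℕ) : d.Z k * d.B = d.Z k := by
  cases k with
  | zero => exact h.BB
  | succ k =>
    simp only [Z]
    rw [add_mul, smul_mul_assoc, smul_mul_assoc, h.eB, mul_assoc, h.TB]

theorem Rel.ZM (h : d.Rel) : d.Z (d.M + 1) = 0 := by
  simp only [Z]
  have hM : (d.M : ℝ) ≠ 0 := by exact_mod_cast h.hM.ne'
  rw [h.e0 _ le_rfl, s, div_self hM]; simp

theorem Rel.RZ0 (h : d.Rel) : d.R * d.Z 0 = d.Z 1 + d.δ 0 • d.Z 0 := by
  have e1 : d.shift * d.B = 0 := by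
    simp only [shift, Finset.sum_mul, mul_assoc, h.εB, mul_zero, Finset.sum_const_zero]
  have e2 : d.err * d.B = 0 := by
    simp only [err, Finset.sum_mul, mul_assoc, h.εB, mul_zero, Finset.sum_const_zero]
  have e3 : d.pert * d.B = d.δ 0 • d.B := by
    simp only [pert, add_mul, smul_mul_assoc, Finset.sum_mul, mul_assoc, h.εB, h.BB, mul_zero,
      smul_zero, Finset.sum_const_zero, add_zero]
  simp only [R, Z]
  rw [add_mul, sub_mul, add_mul, add_mul, smul_mul_assoc, smul_mul_assoc, smul_mul_assoc, e1, e2,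
    e3, h.TB, h.eB, h.BT]
  simp [s]
  abel

theorem Rel.Re (h : d.Rel) (k : ℕ) (hk : k < d.M) :
    d.R * d.e k = d.w • d.e (k + 1) - (d.M : ℝ)⁻¹ • (d.Ek k * d.T) +
      (d.c * d.w ^ k)⁻¹ • (d.δ (k + 1) • d.Z (k + 1) - (d.s k * d.δ k) • (d.Z k * d.T)) := by
  have hkr : k ∈ Finset.range d.M := Finset.mem_range.2 hk
  have e0 : d.T * d.e k = 0 := by rw [← h.TB, mul_assoc, h.Be, mul_zero]
  have e0' : d.e 0 * d.e k = 0 := by rw [← h.eB, mul_assoc, h.Be, mul_zero]
  have e1 : d.shift * d.e k = d.e (k + 1) := by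
    simp only [shift, Finset.sum_mul, mul_assoc, h.εe]
    rw [Finset.sum_eq_single_of_mem k hkr]
    · rw [if_pos ⟨rfl, hk⟩, h.eB]
    · intro l _ hl
      rw [if_neg (fun hh => hl hh.1), mul_zero]
  have hEB : d.Ek k * d.T * d.B = d.Ek k * d.T := by rw [mul_assoc, h.TB]
  have e2 : d.err * d.e k = d.Ek k * d.T := by
    simp only [err, Finset.sum_mul, mul_assoc, h.εe]
    rw [Finset.sum_eq_single_of_mem k hkr]
    · rw [if_pos ⟨rfl, hk⟩, h.TB]
    · intro l _ hl
      rw [if_neg (fun hh => hl hh.1), mul_zero, mul_zero]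
  have e3 : d.pert * d.e k =
      (d.c * d.w ^ k)⁻¹ • (d.δ (k + 1) • d.Z (k + 1) - (d.s k * d.δ k) • (d.Z k * d.T)) := by
    simp only [pert, add_mul, smul_mul_assoc, Finset.sum_mul, mul_assoc, h.εe, h.Be, smul_zero,
      zero_add]
    rw [Finset.sum_eq_single_of_mem k hkr]
    · rw [if_pos ⟨rfl, hk⟩, sub_mul, smul_mul_assoc, smul_mul_assoc, h.ZB, mul_assoc, h.TB]
    · intro l _ hl
      rw [if_neg (fun hh => hl hh.1), mul_zero, smul_zero]
  simp only [R]
  rw [add_mul, sub_mul, add_mul, add_mul, smul_mul_assoc, smul_mul_assoc, smul_mul_assoc, e1, e2,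
    e3, e0, e0', smul_zero, add_zero, zero_add]

theorem Rel.RZ (h : d.Rel) (j : ℕ) (hj : j ≤ d.M) :
    d.R * d.Z j = d.Z (j + 1) + d.δ j • d.Z j := by
  induction j with
  | zero => exact h.RZ0
  | succ k ih =>
    have ih' := ih (by omega)
    have hM : (d.M : ℝ) ≠ 0 := by exact_mod_cast h.hM.ne'
    have hcw : d.c * d.w ^ k ≠ 0 := mul_ne_zero h.hc (pow_ne_zero _ h.hw)
    have e1 : d.R * d.Z (k + 1) = (d.c * d.w ^ k) • (d.R * d.e k)
        + d.s k • ((d.R * d.Z k) * d.T) := by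
      conv_lhs => simp only [Z]
      rw [mul_add, mul_smul_comm, mul_smul_comm, mul_assoc]
    rw [e1, h.Re k (by omega), ih']
    have e2 : d.Z (k + 1 + 1) = (d.c * d.w ^ (k + 1)) • d.e (k + 1)
        + d.s (k + 1) • (d.Z (k + 1) * d.T) := rfl
    have e3 : d.s (k + 1) = d.s k - (d.M : ℝ)⁻¹ := by
      simp only [s]; push_cast; field_simp; ring
    rw [e2, e3]
    simp only [Ek, smul_add, smul_sub, smul_smul, smul_mul_assoc, add_mul]
    have e4 : d.c * d.w ^ k * ((d.M : ℝ)⁻¹ * (d.c * d.w ^ k)⁻¹) = (d.M : ℝ)⁻¹ := by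
      rw [mul_comm (d.M : ℝ)⁻¹, mul_inv_cancel_left₀ hcw]
    have e5 : d.c * d.w ^ k * ((d.c * d.w ^ k)⁻¹ * d.δ (k + 1)) = d.δ (k + 1) :=
      mul_inv_cancel_left₀ hcw _
    have e6 : d.c * d.w ^ k * ((d.c * d.w ^ k)⁻¹ * (d.s k * d.δ k)) = d.s k * d.δ k :=
      mul_inv_cancel_left₀ hcw _
    simp only [e4, e5, e6]
    rw [sub_smul, pow_succ]
    have e7 : d.c * d.w ^ k * d.w = d.c * (d.w ^ k * d.w) := by ring
    rw [e7]
    abel

/-- the projection onto the whole model space -/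
noncomputable def H (d : DilData A) : A := d.B + ∑ k ∈ Finset.range d.M, d.e k * d.ε k

theorem Rel.RH (h : d.Rel) : d.R * d.H = d.R := by
  have e0 : ∀ k, d.T * d.e k = 0 := fun k => by rw [← h.TB, mul_assoc, h.Be, mul_zero]
  have e0' : ∀ k, d.e 0 * d.e k = 0 := fun k => by rw [← h.eB, mul_assoc, h.Be, mul_zero]
  have hTH : d.T * d.H = d.T := by
    simp only [H, mul_add, Finset.mul_sum, ← mul_assoc, e0, zero_mul, Finset.sum_const_zero,
      add_zero, h.TB]
  have heH : d.e 0 * d.H = d.e 0 := by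
    simp only [H, mul_add, Finset.mul_sum, ← mul_assoc, e0', zero_mul, Finset.sum_const_zero,
      add_zero, h.eB]
  have hBH : d.B * d.H = d.B := by
    simp only [H, mul_add, Finset.mul_sum, ← mul_assoc, h.Be, zero_mul, Finset.sum_const_zero,
      add_zero, h.BB]
  have hεH : ∀ k ∈ Finset.range d.M, d.ε k * d.H = d.ε k := by
    intro k hk
    simp only [H, mul_add, Finset.mul_sum, ← mul_assoc, h.εe, h.εB, zero_add]
    rw [Finset.sum_eq_single_of_mem k hk]
    · rw [if_pos ⟨rfl, Finset.mem_range.1 hk⟩, h.Bε]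
    · intro l _ hl
      rw [if_neg (fun hh => hl hh.1.symm), zero_mul]
  have hsh : d.shift * d.H = d.shift := by
    simp only [shift, Finset.sum_mul]
    refine Finset.sum_congr rfl fun k hk => ?_
    rw [mul_assoc, hεH k hk]
  have herr : d.err * d.H = d.err := by
    simp only [err, Finset.sum_mul]
    refine Finset.sum_congr rfl fun k hk => ?_
    rw [mul_assoc, hεH k hk]
  have hpert : d.pert * d.H = d.pert := by
    simp only [pert, add_mul, Finset.sum_mul, smul_mul_assoc, hBH]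
    congr 1
    refine Finset.sum_congr rfl fun k hk => ?_
    rw [mul_assoc, hεH k hk]
  simp only [R]
  rw [add_mul, sub_mul, add_mul, add_mul, smul_mul_assoc, smul_mul_assoc, smul_mul_assoc, hTH, heH,
    hsh, herr, hpert]

/-- The full annihilation statement. -/
theorem Rel.annihilates (h : d.Rel) (P : A) (hPP : P * P = P) (hPB : P * d.B = 0)
    (hBP : d.B * P = 0) (hPe : ∀ k, P * d.e k = 0) (hεP : ∀ k, d.ε k * P = 0)
    (hδ : Set.InjOn d.δ (Finset.range (d.M + 1))) (r : Finset ℝ) (h0 : 0 ∈ r) (h1 : 1 ∈ r)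
    (hr : ∀ j ∈ Finset.range (d.M + 1), d.δ j ∈ r) :
    Polynomial.aeval (P + d.R) (Lagrange.nodal r (id : ℝ → ℝ)) = 0 := by
  classical
  set Λ : Polynomial ℝ := Lagrange.nodal r (id : ℝ → ℝ) with hΛ
  have hPZ : ∀ j, P * d.Z j = 0 := by
    intro j
    induction j with
    | zero => exact hPB
    | succ j ih =>
      simp only [Z]
      rw [mul_add, mul_smul_comm, mul_smul_comm, hPe, ← mul_assoc, ih, zero_mul, smul_zero,
        smul_zero, add_zero]
  have hHP : d.H * P = 0 := by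
    simp only [H, add_mul, hBP, Finset.sum_mul, mul_assoc, hεP, mul_zero, Finset.sum_const_zero,
      add_zero]
  have hPH : P * d.H = 0 := by
    simp only [H, mul_add, hPB, Finset.mul_sum, ← mul_assoc, hPe, zero_mul,
      Finset.sum_const_zero, add_zero]
  have hRP : d.R * P = 0 := by rw [← h.RH, mul_assoc, hHP, mul_zero]
  have e1 : Polynomial.aeval (P + d.R) Λ * P = 0 := by
    rw [aeval_mul_of_eigen (P + d.R) P 1 (by rw [add_mul, hPP, hRP, add_zero, one_smul])]
    have : Λ.eval 1 = 0 := Lagrange.eval_nodal_at_node (v := (id : ℝ → ℝ)) h1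
    rw [this, zero_smul]
  have e2 : Polynomial.aeval (P + d.R) Λ * (1 - P - d.H) = 0 := by
    rw [aeval_mul_of_eigen (P + d.R) (1 - P - d.H) 0 (by
      rw [zero_smul, mul_sub, mul_sub, mul_one, add_mul, hPP, hRP, add_mul, hPH, h.RH]
      abel)]
    have : Λ.eval 0 = 0 := Lagrange.eval_nodal_at_node (v := (id : ℝ → ℝ)) h0
    rw [this, zero_smul]
  have hdvd : (∏ i ∈ Finset.range (d.M + 1), (Polynomial.X - Polynomial.C (d.δ i))) ∣ Λ := by
    have e3 : (∏ i ∈ Finset.range (d.M + 1), (Polynomial.X - Polynomial.C (d.δ i)))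
        = Lagrange.nodal ((Finset.range (d.M + 1)).image d.δ) (id : ℝ → ℝ) := by
      rw [Lagrange.nodal, Finset.prod_image hδ]
      rfl
    rw [e3]
    refine Finset.prod_dvd_prod_of_subset _ _ _ ?_
    intro x hx
    obtain ⟨j, hj, rfl⟩ := Finset.mem_image.1 hx
    exact hr j hj
  obtain ⟨q, hq⟩ := hdvd
  have hZ : ∀ j, j ≤ d.M + 1 → Polynomial.aeval (P + d.R) Λ * d.Z j = 0 := by
    intro j hj
    have e4 := nodal_annihilates (P + d.R) d.M d.δ d.Z h.ZM (fun j hj => by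
      rw [add_mul, hPZ, zero_add, h.RZ j hj]) j hj
    rw [hq, mul_comm, map_mul, mul_assoc, e4, mul_zero]
  have hek : ∀ k ∈ Finset.range d.M, Polynomial.aeval (P + d.R) Λ * d.e k = 0 := by
    intro k hk
    rw [Finset.mem_range] at hk
    have hcw : d.c * d.w ^ k ≠ 0 := mul_ne_zero h.hc (pow_ne_zero _ h.hw)
    have e5 := hZ (k + 1) (by omega)
    simp only [Z] at e5
    rw [mul_add, mul_smul_comm, mul_smul_comm, ← mul_assoc _ (d.Z k), hZ k (by omega), zero_mul,
      smul_zero, add_zero] at e5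
    exact (smul_eq_zero.1 e5).resolve_left hcw
  have e3 : Polynomial.aeval (P + d.R) Λ * d.H = 0 := by
    simp only [H, mul_add, Finset.mul_sum, ← mul_assoc]
    rw [show d.B = d.Z 0 from rfl, hZ 0 (by omega), zero_add]
    exact Finset.sum_eq_zero fun k hk => by rw [hek k hk, zero_mul]
  calc Polynomial.aeval (P + d.R) Λ = Polynomial.aeval (P + d.R) Λ * P
        + Polynomial.aeval (P + d.R) Λ * d.H + Polynomial.aeval (P + d.R) Λ * (1 - P - d.H) := by
        rw [← mul_add, ← mul_add]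
        have : P + d.H + (1 - P - d.H) = 1 := by abel
        rw [this, mul_one]
    _ = 0 := by rw [e1, e2, e3]; simp

theorem Ek_zero (h : d.Rel) : d.Ek 0 = d.e 0 + d.c⁻¹ • d.T := by
  simp only [Ek, Z, pow_zero, mul_one, s, Nat.cast_zero, zero_div, sub_zero, one_smul, h.BT]
  rw [smul_add, smul_smul, inv_mul_cancel₀ h.hc, one_smul]

theorem Ek_succ (h : d.Rel) (k : ℕ) :
    d.Ek (k + 1) = d.e (k + 1) + (d.s (k + 1) * d.w⁻¹) • (d.Ek k * d.T) := by
  have hcw : d.c * d.w ^ (k + 1) ≠ 0 := mul_ne_zero h.hc (pow_ne_zero _ h.hw)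
  have e1 : d.Z (k + 1 + 1) = (d.c * d.w ^ (k + 1)) • d.e (k + 1)
        + d.s (k + 1) • (d.Z (k + 1) * d.T) := rfl
  simp only [Ek]
  rw [e1, smul_add, smul_smul, inv_mul_cancel₀ hcw, one_smul, smul_smul, smul_mul_assoc, smul_smul]
  congr 2
  rw [pow_succ]
  have := h.hc
  have := h.hw
  field_simp

end DilData

section Norm

variable {A : Type*} [NormedRing A] [NormedAlgebra ℝ A] {d : DilData A}

theorem DilData.Rel.norm_G_le (h : d.Rel) {lam a b : ℝ} (hlam : 0 ≤ lam) (ha : 0 ≤ a) (hb : 0 ≤ b)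
    (hw : d.w = lam + 1)
    (hA : ∀ (j : ℕ) (γ : ℕ → ℝ), (∀ k, k < d.M - j → |γ k| ≤ 1) →
      ‖∑ k ∈ Finset.range (d.M - j), γ k • (d.e k * d.T ^ (j + 1) * d.ε (k + j))‖
        ≤ a * lam ^ (j + 1))
    (hB : ∀ j k : ℕ, ‖d.T ^ (j + 2) * d.ε k‖ ≤ b * lam ^ (j + 1)) :
    ∀ (n j : ℕ) (γ : ℕ → ℝ), d.M - j = n → (∀ k, k < d.M - j → |γ k| ≤ 1) →
      ‖∑ k ∈ Finset.range (d.M - j), γ k • (d.Ek k * d.T ^ (j + 1) * d.ε (k + j))‖
        ≤ (a + |d.c|⁻¹ * b) * d.w * lam ^ (j + 1) := by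
  have hwpos : 0 < d.w := by rw [hw]; linarith
  intro n
  induction n with
  | zero =>
    intro j γ hn _
    rw [hn]
    simp only [Finset.range_zero, Finset.sum_empty, norm_zero]
    positivity
  | succ n ih =>
    intro j γ hn hγ
    have hsle : ∀ k, k ≤ d.M → |d.s k| ≤ 1 := by
      intro k hk
      have hM : (0 : ℝ) < d.M := by exact_mod_cast h.hM
      have hk' : (k : ℝ) ≤ d.M := by exact_mod_cast hk
      have h1 : (k : ℝ) / d.M ≤ 1 := by rw [div_le_one hM]; exact hk'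
      have h2 : (0 : ℝ) ≤ (k : ℝ) / d.M := by positivity
      rw [DilData.s, abs_le]; constructor <;> linarith
    -- expansion
    have hexp : ∑ k ∈ Finset.range (d.M - j), γ k • (d.Ek k * d.T ^ (j + 1) * d.ε (k + j))
        = (∑ k ∈ Finset.range (d.M - j), γ k • (d.e k * d.T ^ (j + 1) * d.ε (k + j)))
        + d.w⁻¹ • (∑ k ∈ Finset.range (d.M - (j + 1)), (γ (k + 1) * d.s (k + 1)) •
            (d.Ek k * d.T ^ (j + 1 + 1) * d.ε (k + (j + 1))))
        + (γ 0 * d.c⁻¹) • (d.T ^ (j + 2) * d.ε j) := by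
      have hn' : d.M - (j + 1) = n := by omega
      rw [hn', hn, Finset.sum_range_succ', Finset.sum_range_succ']
      rw [DilData.Ek_zero h]
      have e1 : ∀ k, γ (k + 1) • (d.Ek (k + 1) * d.T ^ (j + 1) * d.ε (k + 1 + j))
          = γ (k + 1) • (d.e (k + 1) * d.T ^ (j + 1) * d.ε (k + 1 + j))
            + d.w⁻¹ • ((γ (k + 1) * d.s (k + 1)) •
              (d.Ek k * d.T ^ (j + 1 + 1) * d.ε (k + (j + 1)))) := by
        intro k
        rw [DilData.Ek_succ h, add_mul, add_mul, smul_add, smul_mul_assoc, smul_mul_assoc]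
        congr 1
        rw [smul_smul, smul_smul, mul_assoc (d.Ek k), ← pow_succ' d.T (j + 1)]
        have e2 : k + 1 + j = k + (j + 1) := by ring
        rw [e2]
        congr 1
        ring
      simp only [e1, Finset.sum_add_distrib, ← Finset.smul_sum]
      have e3 : γ 0 • ((d.e 0 + d.c⁻¹ • d.T) * d.T ^ (j + 1) * d.ε (0 + j))
          = γ 0 • (d.e 0 * d.T ^ (j + 1) * d.ε (0 + j))
            + (γ 0 * d.c⁻¹) • (d.T ^ (j + 2) * d.ε j) := by
        rw [add_mul, add_mul, smul_add, smul_mul_assoc, smul_mul_assoc, smul_smul,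
          ← pow_succ' d.T (j + 1), zero_add]
      rw [e3]
      abel
    rw [hexp]
    have t1 := hA j γ hγ
    have t2 := ih (j + 1) (fun k => γ (k + 1) * d.s (k + 1)) (by omega) (by
      intro k hk
      rw [abs_mul]
      have := hγ (k + 1) (by omega)
      have := hsle (k + 1) (by omega)
      have h5 := abs_nonneg (d.s (k + 1))
      have h6 := abs_nonneg (γ (k + 1))
      nlinarith)
    have t3 := hB j j
    have hγ0 : |γ 0| ≤ 1 := hγ 0 (by omega)
    have t4 : ‖(γ 0 * d.c⁻¹) • (d.T ^ (j + 2) * d.ε j)‖ ≤ |d.c|⁻¹ * (b * lam ^ (j + 1)) := by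
      rw [norm_smul, Real.norm_eq_abs, abs_mul, abs_inv]
      have : |γ 0| * |d.c|⁻¹ ≤ |d.c|⁻¹ := by
        have : 0 ≤ |d.c|⁻¹ := by positivity
        nlinarith
      gcongr
    have t5 : ‖d.w⁻¹ • (∑ k ∈ Finset.range (d.M - (j + 1)), (γ (k + 1) * d.s (k + 1)) •
            (d.Ek k * d.T ^ (j + 1 + 1) * d.ε (k + (j + 1))))‖
        ≤ (a + |d.c|⁻¹ * b) * lam ^ (j + 2) := by
      rw [norm_smul, norm_inv, Real.norm_of_nonneg hwpos.le]
      calc d.w⁻¹ * ‖_‖ ≤ d.w⁻¹ * ((a + |d.c|⁻¹ * b) * d.w * lam ^ (j + 1 + 1)) := by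
            gcongr
        _ = (a + |d.c|⁻¹ * b) * lam ^ (j + 2) := by
            field_simp
    refine (norm_add₃_le).trans ?_
    calc _ ≤ a * lam ^ (j + 1) + (a + |d.c|⁻¹ * b) * lam ^ (j + 2)
          + |d.c|⁻¹ * (b * lam ^ (j + 1)) := by gcongr
      _ = (a + |d.c|⁻¹ * b) * d.w * lam ^ (j + 1) := by rw [hw]; ring

theorem DilData.Rel.norm_err_le (h : d.Rel) {lam a b : ℝ} (hlam : 0 ≤ lam) (ha : 0 ≤ a)
    (hb : 0 ≤ b) (hw : d.w = lam + 1)
    (hA : ∀ (j : ℕ) (γ : ℕ → ℝ), (∀ k, k < d.M - j → |γ k| ≤ 1) →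
      ‖∑ k ∈ Finset.range (d.M - j), γ k • (d.e k * d.T ^ (j + 1) * d.ε (k + j))‖
        ≤ a * lam ^ (j + 1))
    (hB : ∀ j k : ℕ, ‖d.T ^ (j + 2) * d.ε k‖ ≤ b * lam ^ (j + 1)) :
    ‖d.err‖ ≤ (a + |d.c|⁻¹ * b) * d.w * lam := by
  have := h.norm_G_le hlam ha hb hw hA hB d.M 0 (fun _ => 1) (by omega) (by simp)
  simp only [Nat.sub_zero, zero_add, pow_one, add_zero, one_smul] at this
  exact this

end Norm

end Pool.Agent.Helper36
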