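import Pool.Agent.Helper36.SSSProj
import Pool.Agent.Helper36.SSSDefs

/-! From orthogonal finite-rank projections to a strongly series summable M-basis. -/

set_option autoImplicit false

open Filter Topology

namespace Pool.Agent.Helper36

variable {E : Type*} [NormedAddCommGroup E] [NormedSpace ℝ E]

/-- Finitely supported coefficient rows which sum the system give strong series summability. -/
theorem sss_of_rows (x : ℕ → E) (f : ℕ → StrongDual ℝ E) (c : ℕ → ℕ → ℝ) (K : ℕ → ℕ)
    (hK : ∀ n k, K n < k → c n k = 0)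
    (hlim : ∀ y : E, Tendsto (fun n => ∑ k ∈ Finset.range (K n + 1), (c n k * f k y) • x k)
      atTop (𝓝 y)) : StronglySeriesSummable x f := by
  classical
  let K' : ℕ → ℕ := fun n => (Finset.range (n + 1)).sup K
  have hKK' : ∀ n, K n ≤ K' n := fun n =>
    Finset.le_sup (f := K) (Finset.mem_range.2 (Nat.lt_succ_self n))
  let g : ℕ → ℕ := fun N => Nat.findGreatest (fun n => K' n ≤ N) N
  have hg1 : ∀ N, K' 0 ≤ N → K' (g N) ≤ N := by
    intro N hN
    exact Nat.findGreatest_spec (P := fun n => K' n ≤ N) (Nat.zero_le N) hN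
  have hg2 : Tendsto g atTop atTop := by
    rw [tendsto_atTop]
    intro n
    filter_upwards [eventually_ge_atTop (max n (K' n))] with N hN
    exact Nat.le_findGreatest ((le_max_left _ _).trans hN) ((le_max_right _ _).trans hN)
  refine ⟨fun N k => if K' (g N) ≤ N then c (g N) k else 0, ?_, ?_⟩
  · intro N k hk
    dsimp only
    split_ifs with h
    · exact hK _ _ ((hKK' _).trans_lt (h.trans_lt hk))
    · rfl
  · intro y
    have h1 := (hlim y).comp hg2
    refine h1.congr' ?_
    filter_upwards [eventually_ge_atTop (K' 0)] with N hN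
    have hN' := hg1 N hN
    simp only [Function.comp_apply, hN', if_true]
    refine Finset.sum_subset ?_ ?_
    · intro k hk
      rw [Finset.mem_range] at hk ⊢
      have := hKK' (g N)
      omega
    · intro k _ hk
      rw [Finset.mem_range, not_lt] at hk
      rw [hK _ _ (by omega)]
      simp

theorem FR.exists_biorth {D : E →L[ℝ] E} (hD : FR D) (hD2 : D * D = D) :
    ∃ (n : ℕ) (β : Fin n → StrongDual ℝ E) (b : Fin n → E), (∀ x, D x = ∑ i, β i x • b i) ∧
      (∀ i, D (b i) = b i) ∧ (∀ i j, β i (b j) = if i = j then 1 else 0) ∧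
      ∀ i x, β i (D x) = β i x := by
  classical
  obtain ⟨n, β, b, hb, hbmem, hrep⟩ := hD.exists_rep
  have hDb : ∀ i, D (b i) = b i := by
    intro i
    obtain ⟨y, hy⟩ := hbmem i
    have h1 : D y = b i := hy
    rw [← h1]
    exact congrArg (fun T : E →L[ℝ] E => T y) hD2
  have hbi : ∀ i j, β i (b j) = if i = j then 1 else 0 := by
    intro i j
    have h1 : ∑ k, (β k (b j) - if k = j then 1 else 0) • b k = 0 := by
      simp only [sub_smul, Finset.sum_sub_distrib, ite_smul, one_smul, zero_smul,
        Finset.sum_ite_eq', Finset.mem_univ, if_true]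
      rw [← hrep, hDb, sub_self]
    have h2 := Fintype.linearIndependent_iff.1 hb _ h1 i
    exact sub_eq_zero.1 h2
  refine ⟨n, β, b, hrep, hDb, hbi, ?_⟩
  intro i x
  rw [hrep, map_sum]
  simp [hbi]

/-- Extraction of a strongly series summable M-basis from orthogonal projections. -/
theorem exists_mbasis (hinf : ¬ FiniteDimensional ℝ E) {I : Type} [Countable I] [DecidableEq I]
    (D : I → (E →L[ℝ] E)) (hDF : ∀ i, FR (D i)) (hD2 : ∀ i, D i * D i = D i)
    (hDD : ∀ i j, i ≠ j → D i * D j = 0) (c : ℕ → I → ℝ) (S : ℕ → Finset I)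
    (hlim : ∀ y : E, Tendsto (fun n => ∑ i ∈ S n, c n i • D i y) atTop (𝓝 y)) :
    ∃ (x : ℕ → E) (f : ℕ → StrongDual ℝ E), IsMBasis x f ∧ StronglySeriesSummable x f ∧
      ∀ n, ∀ v : StrongDual ℝ E, v ∘L (∑ i ∈ S n, c n i • D i) ∈ Submodule.span ℝ (Set.range f) := by
  classical
  choose d β b hrep hDb hbi hβD using fun i => (hDF i).exists_biorth (hD2 i)
  have hJc : Countable (Σ i : I, Fin (d i)) := inferInstance
  have hJi : Infinite (Σ i : I, Fin (d i)) := by
    by_contra hfin
    rw [not_infinite_iff_finite] at hfin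
    apply hinf
    let X : Submodule ℝ E := Submodule.span ℝ (Set.range fun j : (Σ i : I, Fin (d i)) => b j.1 j.2)
    have hX : FiniteDimensional ℝ X :=
      FiniteDimensional.span_of_finite ℝ (Set.finite_range _)
    have hXc : IsClosed (X : Set E) := Submodule.closed_of_finiteDimensional X
    have htop : X = ⊤ := by
      rw [eq_top_iff]
      intro y _
      refine hXc.mem_of_tendsto (hlim y) (Eventually.of_forall fun n => ?_)
      refine Submodule.sum_mem _ fun i _ => Submodule.smul_mem _ _ ?_
      rw [hrep]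
      exact Submodule.sum_mem _ fun j _ => Submodule.smul_mem _ _
        (Submodule.subset_span ⟨⟨i, j⟩, rfl⟩)
    rw [htop] at hX
    exact (LinearEquiv.finiteDimensional (Submodule.topEquiv (R := ℝ) (M := E)))
  obtain ⟨hden⟩ := nonempty_denumerable (Σ i : I, Fin (d i))
  obtain ⟨e⟩ : Nonempty (ℕ ≃ (Σ i : I, Fin (d i))) :=
    ⟨(Denumerable.eqv (Σ i : I, Fin (d i))).symm⟩
  let x : ℕ → E := fun k => b (e k).1 (e k).2
  let f : ℕ → StrongDual ℝ E := fun k => β (e k).1 (e k).2
  have hbiorth : ∀ j j' : (Σ i : I, Fin (d i)), β j.1 j.2 (b j'.1 j'.2) = if j = j' then 1 else 0 := by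
    rintro ⟨i, j⟩ ⟨i', j'⟩
    by_cases h : i = i'
    · subst h
      rw [hbi]
      by_cases h2 : j = j'
      · subst h2; simp
      · rw [if_neg h2, if_neg]
        intro h3
        exact h2 (eq_of_heq (Sigma.mk.inj h3).2)
    · rw [if_neg (by intro h3; exact h (congrArg Sigma.fst h3))]
      rw [← hβD, ← hDb i' j']
      have : D i (D i' (b i' j')) = (D i * D i') (b i' j') := rfl
      rw [this, hDD i i' h]
      simp
  -- finite sets of naturals
  let T : ℕ → Finset ℕ := fun n =>
    ((S n).sigma (fun i => (Finset.univ : Finset (Fin (d i))))).map e.symm.toEmbedding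
  have hT : ∀ n k, k ∈ T n ↔ (e k).1 ∈ S n := by
    intro n k
    rw [Finset.mem_map]
    constructor
    · rintro ⟨j, hj, rfl⟩
      rw [Equiv.coe_toEmbedding, Equiv.apply_symm_apply]
      exact (Finset.mem_sigma.1 hj).1
    · intro h
      exact ⟨e k, Finset.mem_sigma.2 ⟨h, Finset.mem_univ _⟩, e.symm_apply_apply k⟩
  have hsum : ∀ n (y : E), ∑ k ∈ T n, (c n (e k).1 * f k y) • x k = ∑ i ∈ S n, c n i • D i y := by
    intro n y
    simp only [T, Finset.sum_map, Equiv.coe_toEmbedding, x, f, Equiv.apply_symm_apply]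
    rw [Finset.sum_sigma]
    refine Finset.sum_congr rfl fun i _ => ?_
    rw [hrep, Finset.smul_sum]
    refine Finset.sum_congr rfl fun j _ => ?_
    rw [smul_smul]
    rw [e.apply_symm_apply ⟨i, j⟩]
  refine ⟨x, f, ⟨?_, ?_, ?_⟩, ?_, ?_⟩
  · intro i j
    simp only [x, f]
    rw [hbiorth]
    simp [e.injective.eq_iff]
  · rw [eq_top_iff]
    intro y _
    have h1 : ∀ n, (∑ i ∈ S n, c n i • D i y) ∈ Submodule.span ℝ (Set.range x) := by
      intro n
      rw [← hsum]
      exact Submodule.sum_mem _ fun k _ => Submodule.smul_mem _ _ (Submodule.subset_span ⟨k, rfl⟩)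
    exact mem_closure_of_tendsto (hlim y) (Eventually.of_forall h1)
  · intro y hy
    have h1 : ∀ n, (∑ i ∈ S n, c n i • D i y) = 0 := by
      intro n
      rw [← hsum]
      exact Finset.sum_eq_zero fun k _ => by rw [hy]; simp
    have h2 := hlim y
    simp only [h1] at h2
    exact (tendsto_nhds_unique h2 tendsto_const_nhds)
  · let K : ℕ → ℕ := fun n => (T n).sup id
    refine sss_of_rows x f (fun n k => if k ∈ T n then c n (e k).1 else 0) K ?_ ?_
    · intro n k hk
      rw [if_neg]
      intro hkT
      exact absurd (Finset.le_sup (f := id) hkT) (not_le.2 hk)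
    · intro y
      refine (hlim y).congr fun n => ?_
      rw [← hsum]
      have hsub : T n ⊆ Finset.range (K n + 1) := by
        intro k hk
        rw [Finset.mem_range]
        exact Nat.lt_succ_of_le (Finset.le_sup (f := id) hk)
      rw [← Finset.sum_subset hsub]
      · refine Finset.sum_congr rfl fun k hk => ?_
        rw [if_pos hk]
      · intro k _ hk
        rw [if_neg hk]; simp
  · intro n v
    have : v ∘L (∑ i ∈ S n, c n i • D i) = ∑ k ∈ T n, (c n (e k).1 * v (x k)) • f k := by
      ext y
      have h1 : (v ∘L (∑ i ∈ S n, c n i • D i)) y = v (∑ i ∈ S n, c n i • D i y) := by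
        simp [ContinuousLinearMap.comp_apply]
      rw [h1, ← hsum, map_sum]
      simp only [map_smul, smul_eq_mul, FunLike.coe_sum, Finset.sum_apply, FunLike.coe_smul,
        Pi.smul_apply]
      exact Finset.sum_congr rfl fun k _ => by ring
    rw [this]
    exact Submodule.sum_mem _ fun k _ => Submodule.smul_mem _ _ (Submodule.subset_span ⟨k, rfl⟩)

end Pool.Agent.Helper36
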