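import Pool.Agent.Helper36.SSSProj
import Pool.Agent.Helper36.SSSDefs

/-! From the BAP of the dual to finite-rank operators on the space (a form of local reflexivity). -/

set_option autoImplicit false

open Filter Topology

namespace Pool.Agent.Helper36

theorem extend_functional {V W : Type*} [AddCommGroup V] [Module ℝ V] [NormedAddCommGroup W]
    [NormedSpace ℝ W] (Θ : V →ₗ[ℝ] W) (φ : V →ₗ[ℝ] ℝ) (C : ℝ) (hC : 0 ≤ C)
    (h : ∀ v, |φ v| ≤ C * ‖Θ v‖) :
    ∃ ψ : StrongDual ℝ W, ‖ψ‖ ≤ C ∧ ∀ v, ψ (Θ v) = φ v := by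
  have hsurj : Function.Surjective Θ.rangeRestrict := LinearMap.surjective_rangeRestrict Θ
  obtain ⟨σ, hσ⟩ := Θ.rangeRestrict.exists_rightInverse_of_surjective (LinearMap.range_eq_top.2 hsurj)
  have hσ' : ∀ w : LinearMap.range Θ, Θ (σ w) = w := by
    intro w
    have := congrArg (fun f => f w) hσ
    simp only [LinearMap.comp_apply, LinearMap.id_apply] at this
    exact congrArg Subtype.val this
  let φ' : LinearMap.range Θ →ₗ[ℝ] ℝ := φ ∘ₗ σ
  have hφ' : ∀ w, ‖φ' w‖ ≤ C * ‖w‖ := by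
    intro w
    have := h (σ w)
    rw [hσ'] at this
    exact this
  obtain ⟨ψ, hψ1, hψ2⟩ := exists_extension_norm_eq (𝕜 := ℝ) (LinearMap.range Θ) (φ'.mkContinuous C hφ')
  refine ⟨ψ, ?_, ?_⟩
  · rw [hψ2]
    exact LinearMap.mkContinuous_norm_le _ hC _
  · intro v
    have h1 := hψ1 ⟨Θ v, ⟨v, rfl⟩⟩
    simp only [LinearMap.mkContinuous_apply] at h1
    rw [h1]
    have h2 := h (σ ⟨Θ v, ⟨v, rfl⟩⟩ - v)
    rw [map_sub, map_sub, hσ'] at h2
    simp only [sub_self, norm_zero, mul_zero] at h2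
    have h3 := abs_nonpos_iff.1 h2
    exact sub_eq_zero.1 h3

variable {E : Type*} [NormedAddCommGroup E] [NormedSpace ℝ E]

/-- ℓ₁-type norm bound for the components of a functional on a finite power. -/
theorem sum_norm_le_of_pi {ι : Type*} [Fintype ι] [DecidableEq ι] (ψ : StrongDual ℝ (ι → E))
    (k : ι → StrongDual ℝ E) (hk : ∀ z : ι → E, ψ z = ∑ c, k c (z c)) :
    ∑ c, ‖k c‖ ≤ ‖ψ‖ := by
  refine le_of_forall_pos_le_add fun ε hε => ?_
  set η := ε / (Fintype.card ι + 1) with hη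
  have hηpos : 0 < η := by positivity
  have : ∀ c, ∃ z : E, ‖z‖ ≤ 1 ∧ ‖k c‖ - η ≤ k c z := by
    intro c
    by_cases h0 : ‖k c‖ - η < 0
    · exact ⟨0, by simp, by simp; linarith⟩
    push Not at h0
    obtain ⟨z, hz1, hz2⟩ := (k c).exists_lt_apply_of_lt_opNorm (r := ‖k c‖ - η) (by linarith)
    rw [Real.norm_eq_abs] at hz2
    rcases le_or_gt 0 (k c z) with h | h
    · exact ⟨z, hz1.le, by rw [abs_of_nonneg h] at hz2; exact hz2.le⟩
    · refine ⟨-z, by simpa using hz1.le, ?_⟩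
      rw [abs_of_neg h] at hz2
      simpa using hz2.le
  choose z hz1 hz2 using this
  have h1 : ∑ c, ‖k c‖ ≤ ∑ c, (k c (z c) + η) :=
    Finset.sum_le_sum fun c _ => by linarith [hz2 c]
  have h2 : ∑ c, k c (z c) = ψ z := (hk z).symm
  have h3 : ψ z ≤ ‖ψ‖ := by
    calc ψ z ≤ ‖ψ z‖ := Real.le_norm_self _
      _ ≤ ‖ψ‖ * ‖z‖ := ψ.le_opNorm z
      _ ≤ ‖ψ‖ * 1 := by
        gcongr
        exact (pi_norm_le_iff_of_nonneg zero_le_one).2 hz1
      _ = ‖ψ‖ := mul_one _
  rw [Finset.sum_add_distrib, h2, Finset.sum_const, Finset.card_univ, nsmul_eq_mul] at h1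
  have h4 : (Fintype.card ι : ℝ) * η ≤ ε := by
    rw [hη, mul_div_assoc']
    rw [div_le_iff₀ (by positivity)]
    nlinarith
  linarith

theorem key_ineq {r : ℕ} (h : Fin r → StrongDual ℝ E) (hli : LinearIndependent ℝ h)
    (F : Fin r → StrongDual ℝ (StrongDual ℝ E)) (G : Fin r → StrongDual ℝ E) (s : ℝ) (hs0 : 0 ≤ s)
    (hs : ∀ x : Fin r → E, |∑ l, G l (x l)| ≤ s * ‖∑ l, (h l).smulRight (x l)‖)
    (U : ℝ) (hU0 : 0 ≤ U) (hU : ∀ g : StrongDual ℝ E, ‖∑ l, F l g • h l‖ ≤ U * ‖g‖) :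
    ∑ l, F l (G l) ≤ s * U := by
  classical
  obtain ⟨b, hb⟩ := exists_dual_vectors h hli
  set N : (Fin r → E) → ℝ := fun x => ‖∑ l, (h l).smulRight (x l)‖ with hN
  have hNnn : ∀ x, 0 ≤ N x := fun x => norm_nonneg _
  set B : ℝ := ∑ l, ‖b l‖ with hB
  have hBnn : 0 ≤ B := Finset.sum_nonneg fun _ _ => norm_nonneg _
  have hxN : ∀ x : Fin r → E, ∑ l, ‖x l‖ ≤ N x * B := by
    intro x
    rw [hB, Finset.mul_sum]
    refine Finset.sum_le_sum fun l _ => ?_
    have h1 : (∑ k, (h k).smulRight (x k)) (b l) = x l := by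
      simp [hb]
    calc ‖x l‖ = ‖(∑ k, (h k).smulRight (x k)) (b l)‖ := by rw [h1]
      _ ≤ N x * ‖b l‖ := ContinuousLinearMap.le_opNorm _ _
  -- reduce to an approximate inequality
  suffices H : ∀ δ : ℝ, 0 < δ → δ * B < 1 → ∑ l, F l (G l) ≤ s / (1 - δ * B) * U by
    have hcont : Tendsto (fun δ : ℝ => s / (1 - δ * B) * U) (𝓝[>] 0) (𝓝 (s * U)) := by
      have : Tendsto (fun δ : ℝ => s / (1 - δ * B) * U) (𝓝 0) (𝓝 (s / (1 - 0 * B) * U)) := by
        apply Tendsto.mul_const
        apply Tendsto.div tendsto_const_nhds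
        · exact (tendsto_const_nhds.sub (tendsto_id.mul_const B))
        · simp
      simp only [zero_mul, sub_zero, div_one] at this
      exact this.mono_left nhdsWithin_le_nhds
    refine ge_of_tendsto hcont ?_
    have hev : ∀ᶠ δ in 𝓝[>] (0:ℝ), δ * B < 1 := by
      have : Tendsto (fun δ : ℝ => δ * B) (𝓝[>] 0) (𝓝 0) := by
        have := (tendsto_id (α := ℝ) (x := 𝓝 0)).mul_const B
        simp only [id, zero_mul] at this
        exact this.mono_left nhdsWithin_le_nhds
      exact this.eventually_lt_const (by norm_num)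
    filter_upwards [hev, self_mem_nhdsWithin] with δ h1 h2
    exact H δ h2 h1
  intro δ hδ hδB
  -- the net
  let ev : E → (Fin r → ℝ) := fun y l => h l y
  have hTB : TotallyBounded (ev '' Metric.closedBall 0 1) := by
    have hbd : Bornology.IsBounded (ev '' Metric.closedBall 0 1) := by
      rw [isBounded_iff_forall_norm_le]
      refine ⟨∑ l, ‖h l‖, ?_⟩
      rintro _ ⟨y, hy, rfl⟩
      rw [mem_closedBall_zero_iff] at hy
      refine (pi_norm_le_iff_of_nonneg (Finset.sum_nonneg fun _ _ => norm_nonneg _)).2 fun l => ?_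
      calc ‖h l y‖ ≤ ‖h l‖ * ‖y‖ := (h l).le_opNorm y
        _ ≤ ‖h l‖ * 1 := by gcongr
        _ = ‖h l‖ := mul_one _
        _ ≤ ∑ l, ‖h l‖ := Finset.single_le_sum (f := fun l => ‖h l‖)
            (fun _ _ => norm_nonneg _) (Finset.mem_univ l)
    exact hbd.isCompact_closure.totallyBounded.subset subset_closure
  obtain ⟨t0, ht0sub, ht0fin, ht0cov⟩ := Metric.finite_approx_of_totallyBounded hTB δ hδ
  let t : Finset (Fin r → ℝ) := ht0fin.toFinset
  have hy : ∀ c : t, ∃ y : E, ‖y‖ ≤ 1 ∧ ∀ l, h l y = c.1 l := by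
    intro c
    have hc : c.1 ∈ t0 := ht0fin.mem_toFinset.1 c.2
    obtain ⟨y, hy1, hy2⟩ := ht0sub hc
    exact ⟨y, by simpa using hy1, fun l => by rw [← hy2]⟩
  choose y hy1 hy2 using hy
  let Θ : (Fin r → E) →ₗ[ℝ] (t → E) :=
    { toFun := fun x c => ∑ l, (c.1 l) • x l
      map_add' := fun x x' => by ext c; simp [Finset.sum_add_distrib]
      map_smul' := fun a x => by
        ext c; simp only [Pi.smul_apply, RingHom.id_apply, Finset.smul_sum]
        exact Finset.sum_congr rfl fun l _ => smul_comm _ _ _ }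
  have hΘ : ∀ x c, Θ x c = ∑ l, (c.1 l) • x l := fun x c => rfl
  have hNΘ : ∀ x, N x ≤ ‖Θ x‖ / (1 - δ * B) := by
    intro x
    have h1 : N x ≤ ‖Θ x‖ + δ * (N x * B) := by
      refine ContinuousLinearMap.opNorm_le_of_unit_norm (by
        have := hNnn x; positivity) fun z hz => ?_
      have hz' : ev z ∈ ⋃ c ∈ t0, Metric.ball c δ := ht0cov ⟨z, by simp [hz], rfl⟩
      simp only [Set.mem_iUnion, Metric.mem_ball, exists_prop] at hz'
      obtain ⟨c, hct, hcd⟩ := hz'
      have hct' : c ∈ t := ht0fin.mem_toFinset.2 hct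
      have e1 : (∑ l, (h l).smulRight (x l)) z = Θ x ⟨c, hct'⟩ + ∑ l, (ev z l - c l) • x l := by
        rw [hΘ, ← Finset.sum_add_distrib]
        simp only [FunLike.coe_sum, Finset.sum_apply, ContinuousLinearMap.smulRight_apply]
        refine Finset.sum_congr rfl fun l _ => ?_
        rw [← add_smul]; congr 1; simp [ev]
      rw [e1]
      refine (norm_add_le _ _).trans (add_le_add (norm_le_pi_norm _ _) ?_)
      refine (norm_sum_le _ _).trans ?_
      calc ∑ l, ‖(ev z l - c l) • x l‖ ≤ ∑ l, δ * ‖x l‖ := by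
            refine Finset.sum_le_sum fun l _ => ?_
            rw [norm_smul]
            gcongr
            have : dist (ev z l) (c l) ≤ dist (ev z) c := dist_le_pi_dist _ _ l
            rw [Real.dist_eq] at this
            rw [Real.norm_eq_abs]
            linarith
        _ = δ * ∑ l, ‖x l‖ := by rw [Finset.mul_sum]
        _ ≤ δ * (N x * B) := by gcongr; exact hxN x
    rw [le_div_iff₀ (by linarith)]
    nlinarith
  let φ : (Fin r → E) →ₗ[ℝ] ℝ :=
    { toFun := fun x => ∑ l, G l (x l)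
      map_add' := fun x x' => by simp [Finset.sum_add_distrib]
      map_smul' := fun a x => by simp [Finset.mul_sum] }
  obtain ⟨ψ, hψn, hψ⟩ := extend_functional Θ φ (s / (1 - δ * B))
    (div_nonneg hs0 (by linarith)) (by
      intro x
      calc |φ x| ≤ s * N x := hs x
        _ ≤ s * (‖Θ x‖ / (1 - δ * B)) := by gcongr; exact hNΘ x
        _ = s / (1 - δ * B) * ‖Θ x‖ := by ring)
  let k : t → StrongDual ℝ E := fun c => ψ ∘L (ContinuousLinearMap.single ℝ (fun _ : t => E) c)
  have hk : ∀ z : t → E, ψ z = ∑ c, k c (z c) := by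
    intro z
    simp only [k, ContinuousLinearMap.comp_apply, ContinuousLinearMap.single_apply]
    rw [← map_sum]
    congr 1
    exact (Finset.univ_sum_single z).symm
  have hG : ∀ l, G l = ∑ c : t, (c.1 l) • k c := by
    intro l
    ext z
    have h1 := hψ (Pi.single l z)
    have h2 : φ (Pi.single l z) = G l z := by
      change ∑ j, G j ((Pi.single l z : Fin r → E) j) = G l z
      rw [Finset.sum_eq_single l]
      · simp
      · intro j _ hj; simp [hj]
      · simp
    rw [h2, hk] at h1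
    rw [← h1]
    simp only [FunLike.coe_sum, Finset.sum_apply, FunLike.coe_smul, Pi.smul_apply, smul_eq_mul]
    refine Finset.sum_congr rfl fun c _ => ?_
    rw [hΘ, Finset.sum_eq_single l]
    · simp
    · intro j _ hj; simp [hj]
    · simp
  have hFG : ∑ l, F l (G l) = ∑ c : t, (∑ l, F l (k c) • h l) (y c) := by
    have : ∀ l, F l (G l) = ∑ c : t, (c.1 l) * F l (k c) := by
      intro l; rw [hG l, map_sum]; simp
    simp only [this]
    rw [Finset.sum_comm]
    refine Finset.sum_congr rfl fun c _ => ?_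
    simp only [FunLike.coe_sum, Finset.sum_apply, FunLike.coe_smul, Pi.smul_apply, smul_eq_mul]
    refine Finset.sum_congr rfl fun l _ => ?_
    rw [hy2]; ring
  rw [hFG]
  calc ∑ c : t, (∑ l, F l (k c) • h l) (y c) ≤ ∑ c : t, U * ‖k c‖ := by
        refine Finset.sum_le_sum fun c _ => ?_
        calc (∑ l, F l (k c) • h l) (y c) ≤ ‖(∑ l, F l (k c) • h l) (y c)‖ := Real.le_norm_self _
          _ ≤ ‖∑ l, F l (k c) • h l‖ * ‖y c‖ := ContinuousLinearMap.le_opNorm _ _
          _ ≤ (U * ‖k c‖) * 1 := by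
            gcongr
            · exact hU _
            · exact hy1 c
          _ = U * ‖k c‖ := mul_one _
    _ = U * ∑ c : t, ‖k c‖ := by rw [Finset.mul_sum]
    _ ≤ U * ‖ψ‖ := by gcongr; exact sum_norm_le_of_pi ψ k hk
    _ ≤ U * (s / (1 - δ * B)) := by gcongr
    _ = s / (1 - δ * B) * U := mul_comm _ _

/-- The BAP of the dual with constant `lam`. -/
def DualBAPWith (E : Type*) [NormedAddCommGroup E] [NormedSpace ℝ E] (lam : ℝ) : Prop :=
  ∀ Q : Set (StrongDual ℝ E), IsCompact Q → ∀ ε : ℝ, 0 < ε →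
    ∃ u : StrongDual ℝ E →L[ℝ] StrongDual ℝ E,
      FiniteDimensional ℝ (LinearMap.range (u : StrongDual ℝ E →ₗ[ℝ] StrongDual ℝ E)) ∧
      ‖u‖ ≤ lam ∧ ∀ x ∈ Q, ‖u x - x‖ < ε

theorem bap_ineq {lam : ℝ} (hlam : 0 ≤ lam) (hB : DualBAPWith E lam) {ι : Type*} [Fintype ι]
    (Ψ : ι → StrongDual ℝ (StrongDual ℝ E)) (g : ι → StrongDual ℝ E) (s : ℝ) (hs0 : 0 ≤ s)
    (hs : ∀ T : E →L[ℝ] E, FR T → |∑ j, Ψ j (g j ∘L T)| ≤ s * ‖T‖) :
    ∑ j, Ψ j (g j) ≤ s * lam := by
  classical
  refine le_of_forall_pos_le_add fun ε hε => ?_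
  set C : ℝ := ∑ j, ‖Ψ j‖ with hC
  have hCnn : 0 ≤ C := by
    rw [hC]
    exact Finset.sum_nonneg fun j _ => by positivity
  obtain ⟨u, huF, hun, hu⟩ := hB (Set.range g) (Set.finite_range g).isCompact (ε / (C + 1))
    (by positivity)
  obtain ⟨n, β, b, hb, -, hrep⟩ := FR.exists_rep (E := StrongDual ℝ E) (T := u) huF
  have h1 : ∑ j, Ψ j (u (g j)) = ∑ l, β l (∑ j, Ψ j (b l) • g j) := by
    simp only [hrep, map_sum, map_smul, smul_eq_mul]
    rw [Finset.sum_comm]
    refine Finset.sum_congr rfl fun l _ => Finset.sum_congr rfl fun j _ => mul_comm _ _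
  have h2 : ∑ l, β l (∑ j, Ψ j (b l) • g j) ≤ s * lam := by
    refine key_ineq b hb β (fun l => ∑ j, Ψ j (b l) • g j) s hs0 ?_ lam hlam ?_
    · intro x
      have hT := hs (∑ l, (b l).smulRight (x l)) (FR.sum _ _ fun _ _ => FR.smulRight _ _)
      have e1 : ∀ j, g j ∘L (∑ l, (b l).smulRight (x l)) = ∑ l, g j (x l) • b l := by
        intro j; ext z
        simp only [ContinuousLinearMap.comp_apply, FunLike.coe_sum, Finset.sum_apply,
          ContinuousLinearMap.smulRight_apply, map_sum, map_smul, smul_eq_mul, FunLike.coe_smul,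
          Pi.smul_apply]
        exact Finset.sum_congr rfl fun l _ => mul_comm _ _
      have e2 : ∑ j, Ψ j (g j ∘L (∑ l, (b l).smulRight (x l)))
          = ∑ l, (∑ j, Ψ j (b l) • g j) (x l) := by
        simp only [e1, map_sum, map_smul, smul_eq_mul, FunLike.coe_sum, Finset.sum_apply,
          FunLike.coe_smul, Pi.smul_apply]
        rw [Finset.sum_comm]
        refine Finset.sum_congr rfl fun l _ => Finset.sum_congr rfl fun j _ => mul_comm _ _
      rw [e2] at hT
      exact hT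
    · intro h
      rw [← hrep]
      exact (u.le_opNorm h).trans (by gcongr)
  have h3 : ∑ j, Ψ j (g j) = ∑ j, Ψ j (u (g j)) + ∑ j, Ψ j (g j - u (g j)) := by
    rw [← Finset.sum_add_distrib]
    refine Finset.sum_congr rfl fun j _ => ?_
    rw [← map_add]; congr 1; abel
  have h4 : ∑ j, Ψ j (g j - u (g j)) ≤ ε := by
    calc ∑ j, Ψ j (g j - u (g j)) ≤ ∑ j, ‖Ψ j‖ * (ε / (C + 1)) := by
          refine Finset.sum_le_sum fun j _ => ?_
          calc Ψ j (g j - u (g j)) ≤ ‖Ψ j (g j - u (g j))‖ := Real.le_norm_self _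
            _ ≤ ‖Ψ j‖ * ‖g j - u (g j)‖ := (Ψ j).le_opNorm _
            _ ≤ ‖Ψ j‖ * (ε / (C + 1)) := by
              gcongr
              rw [norm_sub_rev]
              exact (hu _ ⟨j, rfl⟩).le
      _ = C * (ε / (C + 1)) := by rw [← Finset.sum_mul]
      _ ≤ ε := by
        rw [mul_div_assoc', div_le_iff₀ (by positivity)]
        nlinarith
  rw [h3, h1]
  linarith

/-- Approximation of finitely many vectors and functionals by finite-rank operators. -/
theorem exists_approx {lam : ℝ} (hlam : 0 < lam) (hB : DualBAPWith E lam) {m k : ℕ}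
    (a : Fin m → E) (g : Fin k → StrongDual ℝ E) (ε : ℝ) (hε : 0 < ε) :
    ∃ T : E →L[ℝ] E, FR T ∧ ‖T‖ ≤ lam ∧ (∀ i, ‖T (a i) - a i‖ < ε) ∧
      ∀ j, ‖g j ∘L T - g j‖ < ε := by
  classical
  let K : Set ((Fin m → E) × (Fin k → StrongDual ℝ E)) :=
    {q | ∃ T : E →L[ℝ] E, FR T ∧ ‖T‖ ≤ lam ∧ q = (fun i => T (a i), fun j => g j ∘L T)}
  have hKconv : Convex ℝ K := by
    rintro _ ⟨T, hT, hTn, rfl⟩ _ ⟨S, hS, hSn, rfl⟩ c d hc hd hcd
    refine ⟨c • T + d • S, (hT.smul c).add (hS.smul d), ?_, ?_⟩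
    · calc ‖c • T + d • S‖ ≤ ‖c • T‖ + ‖d • S‖ := norm_add_le _ _
        _ = c * ‖T‖ + d * ‖S‖ := by
          rw [norm_smul, norm_smul, Real.norm_of_nonneg hc, Real.norm_of_nonneg hd]
        _ ≤ c * lam + d * lam := by gcongr
        _ = lam := by rw [← add_mul, hcd, one_mul]
    · ext i x
      · simp
      · simp
  by_contra hcon
  push Not at hcon
  have hp : ((a, g) : (Fin m → E) × (Fin k → StrongDual ℝ E)) ∉ closure K := by
    intro hmem
    rw [Metric.mem_closure_iff] at hmem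
    obtain ⟨q, ⟨T, hT, hTn, rfl⟩, hq⟩ := hmem ε hε
    have h1 : ∀ i, ‖T (a i) - a i‖ < ε := by
      intro i
      have : dist (a i) (T (a i)) ≤ dist ((a, g) : (Fin m → E) × (Fin k → StrongDual ℝ E))
          (fun i => T (a i), fun j => g j ∘L T) :=
        (dist_le_pi_dist a (fun i => T (a i)) i).trans (le_max_left _ _)
      rw [dist_comm, dist_eq_norm] at this
      exact this.trans_lt hq
    have h2 : ∀ j, ‖g j ∘L T - g j‖ < ε := by
      intro j
      have : dist (g j) (g j ∘L T) ≤ dist ((a, g) : (Fin m → E) × (Fin k → StrongDual ℝ E))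
          (fun i => T (a i), fun j => g j ∘L T) :=
        (dist_le_pi_dist g (fun j => g j ∘L T) j).trans (le_max_right _ _)
      rw [dist_comm, dist_eq_norm] at this
      exact this.trans_lt hq
    obtain ⟨j, hj⟩ := hcon T hT hTn h1
    exact absurd (h2 j) (not_lt.2 hj)
  obtain ⟨f, c, hfc, hcf⟩ := geometric_hahn_banach_closed_point hKconv.closure isClosed_closure hp
  -- components
  let φ : Fin m → StrongDual ℝ E := fun i =>
    f ∘L (ContinuousLinearMap.inl ℝ (Fin m → E) (Fin k → StrongDual ℝ E)) ∘L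
      (ContinuousLinearMap.single ℝ (fun _ : Fin m => E) i)
  let Ψ : Fin k → StrongDual ℝ (StrongDual ℝ E) := fun j =>
    f ∘L (ContinuousLinearMap.inr ℝ (Fin m → E) (Fin k → StrongDual ℝ E)) ∘L
      (ContinuousLinearMap.single ℝ (fun _ : Fin k => StrongDual ℝ E) j)
  have hf : ∀ (x : Fin m → E) (h : Fin k → StrongDual ℝ E),
      f (x, h) = ∑ i, φ i (x i) + ∑ j, Ψ j (h j) := by
    intro x h
    have e1 : (x, h) = ContinuousLinearMap.inl ℝ (Fin m → E) (Fin k → StrongDual ℝ E) x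
        + ContinuousLinearMap.inr ℝ (Fin m → E) (Fin k → StrongDual ℝ E) h := by simp
    rw [e1, map_add]
    congr 1
    · simp only [φ, ContinuousLinearMap.comp_apply, ContinuousLinearMap.single_apply]
      rw [← map_sum, ← map_sum]
      congr 2
      exact (Finset.univ_sum_single x).symm
    · simp only [Ψ, ContinuousLinearMap.comp_apply, ContinuousLinearMap.single_apply]
      rw [← map_sum, ← map_sum]
      congr 2
      exact (Finset.univ_sum_single h).symm
  -- evaluation functionals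
  let Ev : E → StrongDual ℝ (StrongDual ℝ E) := fun x => ContinuousLinearMap.apply ℝ ℝ x
  have hEv : ∀ (x : E) (h : StrongDual ℝ E), Ev x h = h x := fun x h => rfl
  let Ψ' : Fin m ⊕ Fin k → StrongDual ℝ (StrongDual ℝ E) := Sum.elim (fun i => Ev (a i)) Ψ
  let g' : Fin m ⊕ Fin k → StrongDual ℝ E := Sum.elim φ g
  have hval : ∀ T : E →L[ℝ] E, ∑ q, Ψ' q (g' q ∘L T) =
      f (fun i => T (a i), fun j => g j ∘L T) := by
    intro T
    rw [hf, Fintype.sum_sum_type]
    simp only [Ψ', g', Sum.elim_inl, Sum.elim_inr, hEv, ContinuousLinearMap.comp_apply]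
  have hc0 : 0 < c := by
    have := hfc (fun i => (0 : E →L[ℝ] E) (a i), fun j => g j ∘L (0 : E →L[ℝ] E))
      (subset_closure ⟨0, FR.zero, by simpa using hlam.le, rfl⟩)
    rw [← hval] at this
    simpa using this
  have hineq : ∑ q, Ψ' q (g' q) ≤ (c / lam) * lam := by
    refine bap_ineq hlam.le hB Ψ' g' (c / lam) (by positivity) ?_
    intro T hT
    rcases eq_or_ne T 0 with rfl | hT0
    · simp
    have hTn : 0 < ‖T‖ := norm_pos_iff.2 hT0
    have key : ∀ σ : ℝ, |σ| = 1 → σ * ∑ q, Ψ' q (g' q ∘L T) ≤ c / lam * ‖T‖ := by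
      intro σ hσ
      let S : E →L[ℝ] E := (σ * (lam / ‖T‖)) • T
      have hS := hfc (fun i => S (a i), fun j => g j ∘L S) (subset_closure
        ⟨S, hT.smul _, by
          simp only [S, norm_smul, norm_mul, Real.norm_eq_abs, hσ, one_mul]
          rw [abs_of_pos (by positivity)]
          field_simp
          exact le_refl _, rfl⟩)
      rw [← hval] at hS
      have e3 : ∑ q, Ψ' q (g' q ∘L S) = (σ * (lam / ‖T‖)) * ∑ q, Ψ' q (g' q ∘L T) := by
        rw [Finset.mul_sum]
        refine Finset.sum_congr rfl fun q _ => ?_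
        have : g' q ∘L S = (σ * (lam / ‖T‖)) • (g' q ∘L T) := by
          ext x; simp [S]
        rw [this, map_smul, smul_eq_mul]
      rw [e3] at hS
      have h5 : lam / ‖T‖ * (σ * ∑ q, Ψ' q (g' q ∘L T)) < c := by
        calc lam / ‖T‖ * (σ * ∑ q, Ψ' q (g' q ∘L T))
            = σ * (lam / ‖T‖) * ∑ q, Ψ' q (g' q ∘L T) := by ring
          _ < c := hS
      rw [div_mul_eq_mul_div, le_div_iff₀ hlam]
      have h6 : lam * (σ * ∑ q, Ψ' q (g' q ∘L T)) < c * ‖T‖ := by
        rw [div_mul_eq_mul_div, div_lt_iff₀ hTn] at h5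
        exact h5
      linarith
    rw [abs_le]
    constructor
    · have := key (-1) (by simp)
      linarith
    · have := key 1 (by simp)
      linarith
  have hfin : ∑ q, Ψ' q (g' q) = f (a, g) := by
    have := hval 1
    have e4 : ∀ q, g' q ∘L (1 : E →L[ℝ] E) = g' q := fun q => by ext x; simp
    simp only [e4] at this
    rw [this]
    congr 1
  rw [hfin, div_mul_cancel₀ _ hlam.ne'] at hineq
  linarith

/-- Exact version: a finite-rank operator of norm at most `lam + 1` which is the identity on the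
range of a given finite-rank projection and whose adjoint is the identity on the range of the
adjoint. -/
theorem exists_exact {lam : ℝ} (hlam : 0 < lam) (hB : DualBAPWith E lam) (P : E →L[ℝ] E)
    (hP : P * P = P) (hPF : FR P) :
    ∃ T : E →L[ℝ] E, FR T ∧ ‖T‖ ≤ lam + 1 ∧ T * P = P ∧ P * T = P := by
  classical
  obtain ⟨n, β, b, -, hbmem, hrep⟩ := hPF.exists_rep
  set C1 : ℝ := ∑ i, ‖β i‖ with hC1
  set C2 : ℝ := ∑ i, ‖b i‖ with hC2
  have hC1nn : 0 ≤ C1 := by rw [hC1]; exact Finset.sum_nonneg fun j _ => by positivity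
  have hC2nn : 0 ≤ C2 := by rw [hC2]; exact Finset.sum_nonneg fun j _ => by positivity
  set D : ℝ := C1 + C2 * ‖(1 : E →L[ℝ] E) - P‖ with hD
  have hDnn : 0 ≤ D := by positivity
  obtain ⟨T, hTF, hTn, hTb, hTβ⟩ := exists_approx hlam hB b β (1 / (D + 1)) (by positivity)
  have e1 : ‖(1 - T) * P‖ ≤ C1 * (1 / (D + 1)) := by
    refine ContinuousLinearMap.opNorm_le_bound _ (by positivity) fun x => ?_
    have : ((1 - T) * P) x = ∑ i, β i x • (b i - T (b i)) := by
      change (1 - T) (P x) = _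
      rw [hrep, map_sum]
      refine Finset.sum_congr rfl fun i _ => ?_
      rw [map_smul]; simp
    rw [this, hC1, Finset.sum_mul, Finset.sum_mul]
    refine (norm_sum_le _ _).trans (Finset.sum_le_sum fun i _ => ?_)
    rw [norm_smul, norm_sub_rev]
    calc ‖β i x‖ * ‖T (b i) - b i‖ ≤ (‖β i‖ * ‖x‖) * (1 / (D + 1)) := by
          gcongr
          · exact (β i).le_opNorm x
          · exact (hTb i).le
      _ = ‖β i‖ * (1 / (D + 1)) * ‖x‖ := by ring
  have e2 : ‖P * (1 - T)‖ ≤ C2 * (1 / (D + 1)) := by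
    refine ContinuousLinearMap.opNorm_le_bound _ (by positivity) fun x => ?_
    have : (P * (1 - T)) x = ∑ i, -((β i ∘L T - β i) x) • b i := by
      change P ((1 - T) x) = _
      rw [hrep]
      refine Finset.sum_congr rfl fun i _ => ?_
      simp
    rw [this, hC2, Finset.sum_mul, Finset.sum_mul]
    refine (norm_sum_le _ _).trans (Finset.sum_le_sum fun i _ => ?_)
    rw [norm_smul, norm_neg]
    calc ‖(β i ∘L T - β i) x‖ * ‖b i‖ ≤ ((1 / (D + 1)) * ‖x‖) * ‖b i‖ := by
          gcongr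
          exact ((β i ∘L T - β i).le_opNorm x).trans (by gcongr; exact (hTβ i).le)
      _ = ‖b i‖ * (1 / (D + 1)) * ‖x‖ := by ring
  refine ⟨T + (1 - T) * P + P * (1 - T) * (1 - P), ?_, ?_, ?_, ?_⟩
  · refine (hTF.add (hPF.mul_right _)).add ?_
    rw [mul_assoc]
    exact hPF.mul_left _
  · calc ‖T + (1 - T) * P + P * (1 - T) * (1 - P)‖
        ≤ ‖T‖ + ‖(1 - T) * P‖ + ‖P * (1 - T) * (1 - P)‖ := norm_add₃_le
      _ ≤ lam + C1 * (1 / (D + 1)) + (C2 * (1 / (D + 1))) * ‖(1 : E →L[ℝ] E) - P‖ := by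
          gcongr
          exact (norm_mul_le _ _).trans (by gcongr)
      _ = lam + D / (D + 1) := by rw [hD]; ring
      _ ≤ lam + 1 := by
          gcongr
          rw [div_le_one (by positivity)]; linarith
  · have h1 : (1 - P) * P = 0 := by rw [sub_mul, one_mul, hP, sub_self]
    rw [add_mul, add_mul, mul_assoc _ P P, hP, mul_assoc _ (1 - P) P, h1, mul_zero, add_zero,
      sub_mul, one_mul]
    abel
  · rw [mul_add, mul_add, ← mul_assoc, ← mul_assoc, ← mul_assoc, hP]
    have h2 : P * (1 - T) * P + P * (1 - T) * (1 - P) = P * (1 - T) := by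
      rw [← mul_add, add_sub_cancel, mul_one]
    rw [add_assoc, h2, mul_sub, mul_one]
    abel

end Pool.Agent.Helper36
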