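import Mathlib

/-! Finite-rank projections fixing given vectors and functionals. -/

set_option autoImplicit false

open Filter Topology

namespace Pool.Agent.Helper36

variable {E : Type*} [NormedAddCommGroup E] [NormedSpace ℝ E]

/-- finite rank -/
abbrev FR (T : E →L[ℝ] E) : Prop := FiniteDimensional ℝ (LinearMap.range (T : E →ₗ[ℝ] E))

theorem FR.mono_range {S T : E →L[ℝ] E} (hT : FR T)
    (h : LinearMap.range (S : E →ₗ[ℝ] E) ≤ LinearMap.range (T : E →ₗ[ℝ] E)) : FR S := by
  unfold FR at *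
  exact Submodule.finiteDimensional_of_le h

theorem FR.mul_left {T : E →L[ℝ] E} (hT : FR T) (S : E →L[ℝ] E) : FR (T * S) := by
  apply FR.mono_range hT
  rintro _ ⟨y, rfl⟩
  exact ⟨S y, rfl⟩

theorem FR.mul_right {T : E →L[ℝ] E} (hT : FR T) (S : E →L[ℝ] E) : FR (S * T) := by
  unfold FR at *
  have : LinearMap.range ((S * T : E →L[ℝ] E) : E →ₗ[ℝ] E)
      = (LinearMap.range (T : E →ₗ[ℝ] E)).map (S : E →ₗ[ℝ] E) := by
    ext y; constructor
    · rintro ⟨x, rfl⟩; exact ⟨T x, ⟨x, rfl⟩, rfl⟩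
    · rintro ⟨_, ⟨x, rfl⟩, rfl⟩; exact ⟨x, rfl⟩
  rw [this]; infer_instance

theorem FR.add {S T : E →L[ℝ] E} (hS : FR S) (hT : FR T) : FR (S + T) := by
  unfold FR at *
  have : LinearMap.range ((S + T : E →L[ℝ] E) : E →ₗ[ℝ] E)
      ≤ LinearMap.range (S : E →ₗ[ℝ] E) ⊔ LinearMap.range (T : E →ₗ[ℝ] E) := by
    rintro _ ⟨x, rfl⟩
    exact Submodule.add_mem_sup ⟨x, rfl⟩ ⟨x, rfl⟩
  exact Submodule.finiteDimensional_of_le this

theorem FR.smul {T : E →L[ℝ] E} (hT : FR T) (c : ℝ) : FR (c • T) := by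
  have : c • T = T * (c • (1 : E →L[ℝ] E)) := by ext y; simp
  rw [this]; exact hT.mul_left _

theorem FR.neg {T : E →L[ℝ] E} (hT : FR T) : FR (-T) := by
  have : -T = T * (-(1 : E →L[ℝ] E)) := by ext y; simp
  rw [this]; exact hT.mul_left _

theorem FR.sub {S T : E →L[ℝ] E} (hS : FR S) (hT : FR T) : FR (S - T) := by
  rw [sub_eq_add_neg]; exact hS.add hT.neg

theorem FR.zero : FR (0 : E →L[ℝ] E) := by
  unfold FR
  have : LinearMap.range ((0 : E →L[ℝ] E) : E →ₗ[ℝ] E) = ⊥ := by
    ext y; simp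
  rw [this]; infer_instance

theorem FR.smulRight (f : StrongDual ℝ E) (x : E) : FR (f.smulRight x) := by
  unfold FR
  have : LinearMap.range ((f.smulRight x : E →L[ℝ] E) : E →ₗ[ℝ] E) ≤ Submodule.span ℝ {x} := by
    rintro _ ⟨y, rfl⟩
    exact Submodule.mem_span_singleton.2 ⟨f y, rfl⟩
  exact Submodule.finiteDimensional_of_le this

theorem FR.sum {ι : Type*} (s : Finset ι) (T : ι → (E →L[ℝ] E)) (h : ∀ i ∈ s, FR (T i)) :
    FR (∑ i ∈ s, T i) := by
  classical
  induction s using Finset.induction_on with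
  | empty => simpa using FR.zero
  | insert a s ha ih =>
    rw [Finset.sum_insert ha]
    exact (h a (Finset.mem_insert_self _ _)).add (ih fun i hi => h i (Finset.mem_insert_of_mem hi))

/-- Dual vectors to a linearly independent finite family of functionals. -/
theorem exists_dual_vectors {n : ℕ} (g : Fin n → StrongDual ℝ E) (hg : LinearIndependent ℝ g) :
    ∃ b : Fin n → E, ∀ i j, g i (b j) = if i = j then 1 else 0 := by
  -- the evaluation map is surjective
  let ev : E →ₗ[ℝ] (Fin n → ℝ) := LinearMap.pi fun i => (g i : E →ₗ[ℝ] ℝ)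
  have hsurj : Function.Surjective ev := by
    rw [← LinearMap.dualMap_injective_iff]
    rw [injective_iff_map_eq_zero]
    intro φ hφ
    -- φ = ∑ c i • proj i
    have hφ' : ∀ x : E, φ (ev x) = 0 := fun x => by
      have := congrArg (fun ψ : Module.Dual ℝ E => ψ x) hφ
      simpa using this
    have hsum : ∀ v : Fin n → ℝ, φ v = ∑ i, v i * φ (Pi.single i 1) := by
      intro v
      conv_lhs => rw [← Finset.univ_sum_single v]
      rw [map_sum]
      refine Finset.sum_congr rfl fun i _ => ?_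
      have : Pi.single i (v i) = (v i) • (Pi.single i (1:ℝ) : Fin n → ℝ) := by
        ext j; by_cases h : j = i
        · subst h; simp
        · simp [h]
      rw [this, map_smul]; simp
    have h0 : ∑ i, (φ (Pi.single i 1)) • g i = 0 := by
      ext x
      have := hφ' x
      rw [hsum] at this
      simp only [ev, LinearMap.pi_apply, ContinuousLinearMap.coe_coe] at this
      simp only [FunLike.coe_sum, Finset.sum_apply, FunLike.coe_smul, Pi.smul_apply, smul_eq_mul]
      simpa [mul_comm] using this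
    have hc := Fintype.linearIndependent_iff.1 hg (fun i => φ (Pi.single i 1)) h0
    ext i
    simpa using hc i
  choose b hb using fun j => hsurj (Pi.single j (1:ℝ))
  refine ⟨b, fun i j => ?_⟩
  have := congrFun (hb j) i
  simp only [ev, LinearMap.pi_apply, ContinuousLinearMap.coe_coe] at this
  rw [this]
  simp [Pi.single_apply]

theorem exists_basis_fun' {V : Type*} [AddCommGroup V] [Module ℝ V] (G : Submodule ℝ V)
    [FiniteDimensional ℝ G] :
    ∃ (n : ℕ) (g : Fin n → V), LinearIndependent ℝ g ∧ (∀ i, g i ∈ G) ∧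
      ∀ h ∈ G, ∃ c : Fin n → ℝ, h = ∑ i, c i • g i := by
  let bas := Module.finBasis ℝ G
  refine ⟨Module.finrank ℝ G, fun i => (bas i : V), ?_, fun i => (bas i).2, ?_⟩
  · exact bas.linearIndependent.map' G.subtype (Submodule.ker_subtype G)
  · intro h hh
    refine ⟨fun i => bas.repr ⟨h, hh⟩ i, ?_⟩
    have := bas.sum_repr ⟨h, hh⟩
    have h2 := congrArg (fun z : G => (z : V)) this
    simp only [Submodule.coe_sum, Submodule.coe_smul] at h2
    exact h2.symm

theorem exists_basis_fun (G : Submodule ℝ (StrongDual ℝ E)) [FiniteDimensional ℝ G] :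
    ∃ (n : ℕ) (g : Fin n → StrongDual ℝ E), LinearIndependent ℝ g ∧ (∀ i, g i ∈ G) ∧
      ∀ h ∈ G, ∃ c : Fin n → ℝ, h = ∑ i, c i • g i := exists_basis_fun' G

/-- precomposition with `1 - PA` -/
def preComp (Q : E →L[ℝ] E) : StrongDual ℝ E →ₗ[ℝ] StrongDual ℝ E where
  toFun g := g ∘L Q
  map_add' g h := by ext x; simp
  map_smul' c g := by ext x; simp

theorem exists_proj (A : Submodule ℝ E) [FiniteDimensional ℝ A]
    (G : Submodule ℝ (StrongDual ℝ E)) [FiniteDimensional ℝ G] :
    ∃ P : E →L[ℝ] E, P * P = P ∧ FR P ∧ (∀ a ∈ A, P a = a) ∧ ∀ g ∈ G, g ∘L P = g := by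
  classical
  obtain ⟨p, hp⟩ := Submodule.ClosedComplemented.of_finiteDimensional (𝕜 := ℝ) A
  obtain ⟨PA, hPA, hPAmem⟩ : ∃ PA : E →L[ℝ] E, (∀ a ∈ A, PA a = a) ∧ ∀ x, PA x ∈ A := by
    refine ⟨A.subtypeL ∘L p, fun a ha => ?_, fun x => (p x).2⟩
    have := hp ⟨a, ha⟩
    simp [this]
  have hPA2 : ∀ x, PA (PA x) = PA x := fun x => hPA _ (hPAmem x)
  have hfin : FiniteDimensional ℝ (G.map (preComp (1 - PA))) := inferInstance
  obtain ⟨n, g1, hg1, hg1mem, hrep⟩ := exists_basis_fun (G.map (preComp (1 - PA)))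
  have hg1A : ∀ i, ∀ x, g1 i (PA x) = 0 := by
    intro i x
    obtain ⟨g, -, hg⟩ := hg1mem i
    rw [← hg]
    simp [preComp, hPA2]
  obtain ⟨b0, hb0⟩ := exists_dual_vectors g1 hg1
  obtain ⟨b, hb, hPAb⟩ : ∃ b : Fin n → E, (∀ i j, g1 i (b j) = if i = j then 1 else 0) ∧
      ∀ j, PA (b j) = 0 := by
    refine ⟨fun j => b0 j - PA (b0 j), fun i j => ?_, fun j => ?_⟩
    · simp [hb0, hg1A]
    · simp [hPA2]
  obtain ⟨P2, hP2, hP2F⟩ : ∃ P2 : E →L[ℝ] E, (∀ x, P2 x = ∑ i, (g1 i x) • b i) ∧ FR P2 :=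
    ⟨∑ i, (g1 i).smulRight (b i), fun x => by simp,
      FR.sum _ _ fun i _ => FR.smulRight _ _⟩
  have hPAP2 : ∀ x, PA (P2 x) = 0 := by
    intro x; rw [hP2, map_sum]; simp [hPAb]
  have hP2PA : ∀ x, P2 (PA x) = 0 := by
    intro x; rw [hP2]; simp [hg1A]
  have hgP2 : ∀ i x, g1 i (P2 x) = g1 i x := by
    intro i x; rw [hP2, map_sum]; simp [hb]
  have hP22 : ∀ x, P2 (P2 x) = P2 x := by
    intro x
    rw [hP2 (P2 x)]
    simp only [hgP2]
    rw [hP2]
  refine ⟨PA + P2, ?_, ?_, ?_, ?_⟩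
  · ext x
    simp only [mul_apply_eq_comp, FunLike.coe_add, Pi.add_apply, map_add, hPA2,
      hPAP2, hP2PA, hP22, add_zero, zero_add]
  · apply FR.add _ hP2F
    unfold FR
    have : LinearMap.range (PA : E →ₗ[ℝ] E) ≤ A := by
      rintro _ ⟨x, rfl⟩; exact hPAmem x
    exact Submodule.finiteDimensional_of_le this
  · intro a ha
    have h1 : P2 a = 0 := by rw [← hPA a ha]; exact hP2PA a
    simp [hPA a ha, h1]
  · intro g hg
    obtain ⟨c, hc⟩ := hrep _ (Submodule.mem_map_of_mem hg)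
    have h3 : ∀ x, g x - g (PA x) = ∑ i, c i * g1 i x := by
      intro x
      have := congrArg (fun h : StrongDual ℝ E => h x) hc
      simpa [preComp] using this
    have h4 : ∀ x, g (P2 x) = g x - g (PA x) := by
      intro x
      have h5 := h3 (P2 x)
      rw [hPAP2, map_zero, sub_zero] at h5
      rw [h5, h3 x]
      simp [hgP2]
    ext x
    simp only [ContinuousLinearMap.comp_apply, FunLike.coe_add, Pi.add_apply, map_add]
    rw [h4]; ring

/-- A finite-rank operator is a finite sum of rank one operators, with independent vectors. -/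
theorem FR.exists_rep {T : E →L[ℝ] E} (hT : FR T) :
    ∃ (n : ℕ) (β : Fin n → StrongDual ℝ E) (b : Fin n → E), LinearIndependent ℝ b ∧
      (∀ i, b i ∈ LinearMap.range (T : E →ₗ[ℝ] E)) ∧ ∀ x, T x = ∑ i, β i x • b i := by
  unfold FR at hT
  let bas := Module.finBasis ℝ (LinearMap.range (T : E →ₗ[ℝ] E))
  let T' : E →L[ℝ] LinearMap.range (T : E →ₗ[ℝ] E) :=
    T.codRestrict (LinearMap.range (T : E →ₗ[ℝ] E)) (fun x => ⟨x, rfl⟩)
  refine ⟨_, fun i => (LinearMap.toContinuousLinearMap (bas.coord i)) ∘L T',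
    fun i => (bas i : E), ?_, fun i => (bas i).2, ?_⟩
  · exact bas.linearIndependent.map' (Submodule.subtype _) (Submodule.ker_subtype _)
  · intro x
    have := bas.sum_repr (T' x)
    have h2 := congrArg (fun z : LinearMap.range (T : E →ₗ[ℝ] E) => (z : E)) this
    simp only [Submodule.coe_sum, Submodule.coe_smul] at h2
    simp only [ContinuousLinearMap.comp_apply, LinearMap.coe_toContinuousLinearMap',
      Module.Basis.coord_apply]
    rw [h2]
    rfl

theorem FR.finiteDimensional_range_preComp {T : E →L[ℝ] E} (hT : FR T) :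
    FiniteDimensional ℝ (LinearMap.range (preComp T)) := by
  obtain ⟨n, β, b, -, -, h⟩ := hT.exists_rep
  have : LinearMap.range (preComp T) ≤ Submodule.span ℝ (Set.range β) := by
    rintro _ ⟨g, rfl⟩
    have : preComp T g = ∑ i, g (b i) • β i := by
      ext x
      simp only [preComp, LinearMap.coe_mk, AddHom.coe_mk, ContinuousLinearMap.comp_apply, h,
        map_sum, map_smul, smul_eq_mul, FunLike.coe_sum, Finset.sum_apply, FunLike.coe_smul,
        Pi.smul_apply]
      exact Finset.sum_congr rfl fun i _ => mul_comm _ _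
    rw [this]
    exact Submodule.sum_mem _ fun i _ => Submodule.smul_mem _ _ (Submodule.subset_span ⟨i, rfl⟩)
  have : FiniteDimensional ℝ (Submodule.span ℝ (Set.range β)) :=
    FiniteDimensional.span_of_finite ℝ (Set.finite_range β)
  exact Submodule.finiteDimensional_of_le ‹_›

/-- The projection we use all the time. -/
theorem exists_proj' {T : E →L[ℝ] E} (hT : FR T) (D : Set E) (hD : D.Finite)
    (W : Set (StrongDual ℝ E)) (hW : W.Finite) :
    ∃ P : E →L[ℝ] E, P * P = P ∧ FR P ∧ P * T = T ∧ T * P = T ∧ (∀ d ∈ D, P d = d) ∧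
      ∀ v ∈ W, v ∘L P = v := by
  have h1 : FiniteDimensional ℝ (Submodule.span ℝ D) := FiniteDimensional.span_of_finite ℝ hD
  have h2 : FiniteDimensional ℝ (Submodule.span ℝ W) := FiniteDimensional.span_of_finite ℝ hW
  have h3 := hT.finiteDimensional_range_preComp
  unfold FR at hT
  obtain ⟨P, hP, hPF, hPA, hPG⟩ := exists_proj (LinearMap.range (T : E →ₗ[ℝ] E) ⊔ Submodule.span ℝ D)
    (LinearMap.range (preComp T) ⊔ Submodule.span ℝ W)
  refine ⟨P, hP, hPF, ?_, ?_, ?_, ?_⟩
  · ext x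
    exact hPA (T x) (Submodule.mem_sup_left ⟨x, rfl⟩)
  · ext x
    -- use functionals to separate
    refine eq_of_sub_eq_zero ?_
    by_contra hne
    obtain ⟨g, -, hg⟩ := exists_dual_vector ℝ ((T * P) x - T x) (norm_ne_zero_iff.2 hne)
    have h4 := hPG (preComp T g) (Submodule.mem_sup_left ⟨g, rfl⟩)
    have h5 := congrArg (fun h : StrongDual ℝ E => h x) h4
    simp only [preComp, LinearMap.coe_mk, AddHom.coe_mk, ContinuousLinearMap.comp_apply] at h5
    have h6 : g ((T * P) x - T x) = 0 := by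
      rw [map_sub]; exact sub_eq_zero.2 h5
    rw [h6] at hg
    exact hne (norm_eq_zero.1 (by exact_mod_cast hg.symm))
  · intro d hd
    exact hPA d (Submodule.mem_sup_right (Submodule.subset_span hd))
  · intro v hv
    exact hPG v (Submodule.mem_sup_right (Submodule.subset_span hv))

end Pool.Agent.Helper36
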