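import Pool.Agent.Helper36.SSSDilate

/-! From long bounded shifts in the tail to the supply of diagonalisable operators. -/

set_option autoImplicit false

open Filter Topology

namespace Pool.Agent.Helper36

namespace DilData

variable {A : Type*} [Ring A] [Algebra ℝ A]

/-- rescale the perturbation -/
def scale (d : DilData A) (η : ℝ) : DilData A := { d with δ := fun k => η * d.δ k }

variable (d : DilData A) (η : ℝ)

theorem scale_s (k : ℕ) : (d.scale η).s k = d.s k := rfl

theorem scale_Z (k : ℕ) : (d.scale η).Z k = d.Z k := by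
  induction k with
  | zero => rfl
  | succ k ih =>
    change (d.c * d.w ^ k) • d.e k + d.s k • ((d.scale η).Z k * d.T) = _
    rw [ih]; rfl

theorem scale_err : (d.scale η).err = d.err := by
  simp only [err, Ek, scale_Z]
  rfl

theorem scale_shift : (d.scale η).shift = d.shift := rfl

theorem scale_pert : (d.scale η).pert = η • d.pert := by
  simp only [pert, scale_Z, scale_s]
  simp only [scale, smul_add, Finset.smul_sum, smul_smul]
  congr 1
  refine Finset.sum_congr rfl fun k _ => ?_
  simp only [sub_mul, smul_sub, smul_mul_assoc, smul_smul]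
  congr 2
  · ring
  · ring

theorem scale_R : (d.scale η).R = d.T + d.c • d.e 0 + d.w • d.shift - (d.M : ℝ)⁻¹ • d.err
    + η • d.pert := by
  simp only [R, scale_err, scale_shift, scale_pert]
  rfl

variable {d}

theorem Rel.scale (h : d.Rel) : (d.scale η).Rel :=
  { hM := h.hM, hc := h.hc, hw := h.hw, BB := h.BB, TB := h.TB, BT := h.BT, eB := h.eB,
    Be := h.Be, εB := h.εB, Bε := h.Bε, e0 := h.e0, εe := h.εe }

theorem Rel.mul_R (h : d.Rel) (P : A) (hPB : P * d.B = 0) (hPe : ∀ k, P * d.e k = 0) :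
    P * d.R = 0 := by
  have hPZ : ∀ j, P * d.Z j = 0 := by
    intro j
    induction j with
    | zero => exact hPB
    | succ j ih =>
      simp only [Z]
      rw [mul_add, mul_smul_comm, mul_smul_comm, hPe, ← mul_assoc, ih, zero_mul, smul_zero,
        smul_zero, add_zero]
  have hPT : P * d.T = 0 := by rw [← h.BT, ← mul_assoc, hPB, zero_mul]
  have h1 : P * d.shift = 0 := by
    simp only [shift, Finset.mul_sum, ← mul_assoc, hPe, zero_mul, Finset.sum_const_zero]
  have h2 : P * d.err = 0 := by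
    simp only [err, Ek, Finset.mul_sum, ← mul_assoc, mul_smul_comm, hPZ, smul_zero, zero_mul,
      Finset.sum_const_zero]
  have h3 : P * d.pert = 0 := by
    simp only [pert, mul_add, Finset.mul_sum, mul_smul_comm, ← mul_assoc, mul_sub, hPZ, hPB,
      smul_zero, zero_mul, Finset.sum_const_zero, add_zero, sub_zero]
  simp only [R]
  rw [mul_add, mul_sub, mul_add, mul_add, mul_smul_comm, mul_smul_comm, mul_smul_comm, hPT, hPe,
    h1, h2, h3]
  simp

theorem Rel.R_mul (h : d.Rel) (P : A) (hBP : d.B * P = 0) (hεP : ∀ k, d.ε k * P = 0) :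
    d.R * P = 0 := by
  have hHP : d.H * P = 0 := by
    simp only [H, add_mul, hBP, Finset.sum_mul, mul_assoc, hεP, mul_zero, Finset.sum_const_zero,
      add_zero]
  rw [← h.RH, mul_assoc, hHP, mul_zero]

end DilData

variable {E : Type*} [NormedAddCommGroup E] [NormedSpace ℝ E]

/-- All partial signed permutation operators of the system are bounded by `K`. -/
def MatchBound {ι : Type} (y : ι → E) (φ : ι → StrongDual ℝ E) (K : ℝ) : Prop :=
  ∀ (κ : Type) [Fintype κ] (a b : κ → ι), Function.Injective a → Function.Injective b →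
    ∀ γ : κ → ℝ, (∀ t, |γ t| ≤ 1) → ‖∑ t, γ t • (φ (a t)).smulRight (y (b t))‖ ≤ K

/-- Symmetric systems in the tail. -/
def TailProp (E : Type*) [NormedAddCommGroup E] [NormedSpace ℝ E] (K : ℝ) : Prop :=
  ∀ Q₀ : E →L[ℝ] E, Q₀ * Q₀ = Q₀ → FR Q₀ → ∀ (ι : Type) [Fintype ι] [DecidableEq ι],
    ∃ (y : ι → E) (φ : ι → StrongDual ℝ E),
      (∀ i j, φ i (y j) = if i = j then 1 else 0) ∧ (∀ i, Q₀ (y i) = 0) ∧
      (∀ i x, φ i (Q₀ x) = 0) ∧ MatchBound y φ K ∧ (∀ i, ‖y i‖ ≤ 1) ∧ ∀ i, ‖φ i‖ ≤ K

theorem exists_diag {K : ℝ} (hK : 0 ≤ K) (hTail : TailProp E K) (P : E →L[ℝ] E)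
    (hPP : P * P = P) (hPF : FR P) (T : E →L[ℝ] E) (hTF : FR T) {lam : ℝ} (hlam : 0 ≤ lam)
    (hTn : ‖T‖ ≤ lam) (hTP : T * P = P) (hPT : P * T = P) :
    ∃ R : E →L[ℝ] E, FR R ∧ ‖R‖ ≤ lam + (lam + 1) * K + 3 ∧ R * P = P ∧ P * R = P ∧ IsDiag R := by
  classical
  obtain ⟨Q, hQQ, hQF, hQT, hTQ, -, -⟩ := exists_proj' hTF ∅ Set.finite_empty ∅ Set.finite_empty
  have hQP : Q * P = P := by
    calc Q * P = Q * (T * P) := by rw [hTP]
      _ = P := by rw [← mul_assoc, hQT, hTP]
  have hPQ : P * Q = P := by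
    calc P * Q = (P * T) * Q := by rw [hPT]
      _ = P := by rw [mul_assoc, hTQ, hPT]
  set B : E →L[ℝ] E := Q - P with hB
  set T' : E →L[ℝ] E := T - P with hT'
  have hBB : B * B = B := by
    rw [hB, mul_sub, sub_mul, sub_mul, hQQ, hPQ, hQP, hPP]; abel
  have hTB : T' * B = T' := by
    rw [hB, hT', mul_sub, sub_mul, sub_mul, hTQ, hPQ, hTP, hPP]; abel
  have hBT : B * T' = T' := by
    rw [hB, hT', mul_sub, sub_mul, sub_mul, hQT, hPT, hQP, hPP]; abel
  have hPB : P * B = 0 := by rw [hB, mul_sub, hPQ, hPP, sub_self]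
  have hBP : B * P = 0 := by rw [hB, sub_mul, hQP, hPP, sub_self]
  have hBQ : B * Q = B := by rw [hB, sub_mul, hQQ, hPQ]
  have hQB : Q * B = B := by rw [hB, mul_sub, hQQ, hQP]
  have hBF : FR B := hQF.sub hPF
  obtain ⟨N, β, b, hrep, hBb, hβb, hβB⟩ := hBF.exists_biorth hBB
  set B1 : ℝ := ∑ i, ‖β i‖ with hB1
  set B2 : ℝ := ∑ i, ‖b i‖ with hB2
  have hB1nn : 0 ≤ B1 := by rw [hB1]; exact Finset.sum_nonneg fun j _ => by positivity
  have hB2nn : 0 ≤ B2 := by rw [hB2]; exact Finset.sum_nonneg fun j _ => by positivity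
  -- parameters
  set c : ℝ := (B1 + 1)⁻¹ with hc
  have hcpos : 0 < c := by positivity
  set a0 : ℝ := K * (B1 * B2) with ha0
  set b0 : ℝ := K * B2 * lam with hb0
  have ha0nn : 0 ≤ a0 := by positivity
  have hb0nn : 0 ≤ b0 := by positivity
  obtain ⟨M, hMpos, hM⟩ : ∃ M : ℕ, 0 < M ∧ (a0 + |c|⁻¹ * b0) * (lam + 1) * lam ≤ M := by
    obtain ⟨M, hM⟩ := exists_nat_ge ((a0 + |c|⁻¹ * b0) * (lam + 1) * lam)
    exact ⟨M + 1, Nat.succ_pos M, hM.trans (by push_cast; linarith)⟩
  obtain ⟨y, φ, hbi, hQy, hφQ, hMB, hyn, hφn⟩ := hTail Q hQQ hQF (Fin M × Fin N)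
  have hPy : ∀ i, P (y i) = 0 := by
    intro i
    have : P (y i) = (P * Q) (y i) := by rw [hPQ]
    rw [this, mul_apply_eq_comp, hQy, map_zero]
  have hφP : ∀ i x, φ i (P x) = 0 := by
    intro i x
    have : P x = Q (P x) := by
      have := congrArg (fun S : E →L[ℝ] E => S x) hQP
      exact this.symm
    rw [this, hφQ]
  have hBy : ∀ i, B (y i) = 0 := by
    intro i; rw [hB]; simp [hQy, hPy]
  have hφB : ∀ i x, φ i (B x) = 0 := by
    intro i x; rw [hB]; simp [hφQ, hφP]
  let e : ℕ → (E →L[ℝ] E) := fun k =>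
    if h : k < M then ∑ i, (β i).smulRight (y (⟨k, h⟩, i)) else 0
  let ε : ℕ → (E →L[ℝ] E) := fun k =>
    if h : k < M then ∑ i, (φ (⟨k, h⟩, i)).smulRight (b i) else 0
  have he : ∀ k (h : k < M) x, e k x = ∑ i, β i x • y (⟨k, h⟩, i) := by
    intro k h x; simp only [e, dif_pos h]; simp
  have hε : ∀ k (h : k < M) x, ε k x = ∑ i, φ (⟨k, h⟩, i) x • b i := by
    intro k h x; simp only [ε, dif_pos h]; simp
  have he0 : ∀ k, M ≤ k → e k = 0 := fun k h => by simp only [e]; rw [dif_neg (not_lt.2 h)]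
  have hε0 : ∀ k, M ≤ k → ε k = 0 := fun k h => by simp only [ε]; rw [dif_neg (not_lt.2 h)]
  let d : DilData (E →L[ℝ] E) :=
    { M := M, c := c, w := lam + 1, δ := fun k => 1 / ((k : ℝ) + 2), B := B, T := T', e := e,
      ε := ε }
  have hrel : d.Rel :=
    { hM := hMpos
      hc := hcpos.ne'
      hw := by change lam + 1 ≠ 0; positivity
      BB := hBB
      TB := hTB
      BT := hBT
      eB := by
        intro k
        change e k * B = e k
        by_cases h : k < M
        · ext x
          rw [mul_apply_eq_comp, he k h, he k h]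
          simp only [hβB]
        · rw [he0 k (not_lt.1 h), zero_mul]
      Be := by
        intro k
        change B * e k = 0
        by_cases h : k < M
        · ext x
          rw [mul_apply_eq_comp, he k h, map_sum]
          simp [hBy]
        · rw [he0 k (not_lt.1 h), mul_zero]
      εB := by
        intro k
        change ε k * B = 0
        by_cases h : k < M
        · ext x
          rw [mul_apply_eq_comp, hε k h]
          simp [hφB]
        · rw [hε0 k (not_lt.1 h), zero_mul]
      Bε := by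
        intro k
        change B * ε k = ε k
        by_cases h : k < M
        · ext x
          rw [mul_apply_eq_comp, hε k h, map_sum]
          simp [hBb]
        · rw [hε0 k (not_lt.1 h), mul_zero]
      e0 := he0
      εe := by
        intro k l
        change ε k * e l = if k = l ∧ k < M then B else 0
        by_cases hk : k < M
        · by_cases hl : l < M
          · ext x
            rw [mul_apply_eq_comp, hε k hk, he l hl]
            simp only [map_sum, map_smul, smul_eq_mul, hbi]
            by_cases hkl : k = l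
            · subst hkl
              rw [if_pos ⟨rfl, hk⟩, hrep]
              simp
            · rw [if_neg (fun hh => hkl hh.1)]
              have : ∀ i j, ((⟨k, hk⟩, i) : Fin M × Fin N) ≠ (⟨l, hl⟩, j) := by
                intro i j hh
                exact hkl (Fin.mk.inj (Prod.mk.inj hh).1)
              simp [this]
          · have hne : ¬ (k = l ∧ k < M) := fun hh => hl (hh.1 ▸ hh.2)
            rw [he0 l (not_lt.1 hl), mul_zero, if_neg hne]
        · have hne : ¬ (k = l ∧ k < M) := fun hh => hk hh.2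
          rw [hε0 k (not_lt.1 hk), zero_mul, if_neg hne] }
  have hPe : ∀ k, P * d.e k = 0 := by
    intro k
    change P * e k = 0
    by_cases h : k < M
    · ext x
      rw [mul_apply_eq_comp, he k h, map_sum]
      simp [hPy]
    · rw [he0 k (not_lt.1 h), mul_zero]
  have hεP : ∀ k, d.ε k * P = 0 := by
    intro k
    change ε k * P = 0
    by_cases h : k < M
    · ext x
      rw [mul_apply_eq_comp, hε k h]
      simp [hφP]
    · rw [hε0 k (not_lt.1 h), zero_mul]
  -- norm estimates
  have hTpow : ∀ n i, (T' ^ n) (b i) = (T ^ n) (b i) := by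
    intro n i
    have hPb : P (b i) = 0 := by
      have : P (b i) = (P * B) (b i) := by rw [mul_apply_eq_comp, hBb]
      rw [this, hPB]; simp
    have hPTn : ∀ n, P * T ^ n = P := by
      intro n
      induction n with
      | zero => simp
      | succ n ih => rw [pow_succ, ← mul_assoc, ih, hPT]
    induction n with
    | zero => simp
    | succ n ih =>
      rw [pow_succ', pow_succ', mul_apply_eq_comp, mul_apply_eq_comp, ih, hT']
      have : P ((T ^ n) (b i)) = 0 := by
        have := congrArg (fun S : E →L[ℝ] E => S (b i)) (hPTn n)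
        simp only [mul_apply_eq_comp] at this
        rw [this, hPb]
      rw [FunLike.coe_sub, Pi.sub_apply, this, sub_zero]
  have hTb : ∀ n i, ‖(T' ^ n) (b i)‖ ≤ lam ^ n * ‖b i‖ := by
    intro n i
    rw [hTpow]
    calc ‖(T ^ n) (b i)‖ ≤ ‖T ^ n‖ * ‖b i‖ := ContinuousLinearMap.le_opNorm _ _
      _ ≤ lam ^ n * ‖b i‖ := by
        gcongr
        rcases n with _ | n
        · rw [pow_zero, pow_zero]
          exact ContinuousLinearMap.norm_id_le
        · exact (norm_pow_le' T (Nat.succ_pos n)).trans (by gcongr)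
  have hA : ∀ (j : ℕ) (γ : ℕ → ℝ), (∀ k, k < d.M - j → |γ k| ≤ 1) →
      ‖∑ k ∈ Finset.range (d.M - j), γ k • (d.e k * d.T ^ (j + 1) * d.ε (k + j))‖
        ≤ a0 * lam ^ (j + 1) := by
    intro j γ hγ
    change ∀ k, k < M - j → |γ k| ≤ 1 at hγ
    have e1 : ∑ k ∈ Finset.range (M - j), γ k • (e k * T' ^ (j + 1) * ε (k + j))
        = ∑ i, ∑ i', (β i' ((T' ^ (j + 1)) (b i))) •
          ∑ t : Fin (M - j), γ t • (φ (⟨t + j, by omega⟩, i)).smulRight (y (⟨t, by omega⟩, i')) := by
      rw [Finset.sum_range]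
      ext x
      simp only [FunLike.coe_sum, Finset.sum_apply, FunLike.coe_smul, Pi.smul_apply,
        ContinuousLinearMap.smulRight_apply, mul_apply_eq_comp]
      have e2 : ∀ t : Fin (M - j), e t ((T' ^ (j + 1)) (ε (t + j) x))
          = ∑ i, ∑ i', (φ (⟨t + j, by omega⟩, i) x * β i' ((T' ^ (j + 1)) (b i))) •
            y (⟨t, by omega⟩, i') := by
        intro t
        rw [hε _ (by omega : (t : ℕ) + j < M), map_sum, map_sum]
        refine Finset.sum_congr rfl fun i _ => ?_
        rw [map_smul, map_smul, he _ (by omega : (t : ℕ) < M), Finset.smul_sum]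
        refine Finset.sum_congr rfl fun i' _ => ?_
        rw [smul_smul]
      simp only [e2, Finset.smul_sum]
      rw [Finset.sum_comm]
      refine Finset.sum_congr rfl fun i _ => ?_
      rw [Finset.sum_comm]
      refine Finset.sum_congr rfl fun i' _ => ?_
      refine Finset.sum_congr rfl fun t _ => ?_
      rw [smul_smul, smul_smul, smul_smul]
      congr 1
      ring
    change ‖∑ k ∈ Finset.range (M - j), γ k • (e k * T' ^ (j + 1) * ε (k + j))‖ ≤ _
    rw [e1]
    calc ‖∑ i, ∑ i', (β i' ((T' ^ (j + 1)) (b i))) •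
          ∑ t : Fin (M - j), γ t • (φ (⟨t + j, by omega⟩, i)).smulRight
            (y (⟨t, by omega⟩, i'))‖
        ≤ ∑ i, ∑ i', (‖β i'‖ * (lam ^ (j + 1) * ‖b i‖)) * K := by
          refine (norm_sum_le _ _).trans (Finset.sum_le_sum fun i _ => ?_)
          refine (norm_sum_le _ _).trans (Finset.sum_le_sum fun i' _ => ?_)
          rw [norm_smul]
          gcongr
          · exact ((β i').le_opNorm _).trans (by gcongr; exact hTb _ _)
          · refine hMB (Fin (M - j)) (fun t => (⟨t + j, by omega⟩, i))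
              (fun t => (⟨t, by omega⟩, i')) ?_ ?_ (fun t => γ t) fun t => hγ t t.2
            · intro t t' htt
              have := Fin.mk.inj (Prod.mk.inj htt).1
              exact Fin.ext (by omega)
            · intro t t' htt
              have := Fin.mk.inj (Prod.mk.inj htt).1
              exact Fin.ext (by omega)
      _ = a0 * lam ^ (j + 1) := by
          rw [ha0, hB1, hB2, Finset.sum_mul_sum, Finset.sum_comm]
          rw [Finset.mul_sum, Finset.sum_mul]
          refine Finset.sum_congr rfl fun i' _ => ?_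
          rw [Finset.mul_sum, Finset.sum_mul]
          refine Finset.sum_congr rfl fun i _ => ?_
          ring
  have hBbd : ∀ j k : ℕ, ‖d.T ^ (j + 2) * d.ε k‖ ≤ b0 * lam ^ (j + 1) := by
    intro j k
    change ‖T' ^ (j + 2) * ε k‖ ≤ _
    by_cases hk : k < M
    · refine ContinuousLinearMap.opNorm_le_bound _ (by positivity) fun x => ?_
      rw [mul_apply_eq_comp, hε k hk, map_sum]
      calc ‖∑ i, (T' ^ (j + 2)) (φ (⟨k, hk⟩, i) x • b i)‖
          ≤ ∑ i, (K * ‖x‖) * (lam ^ (j + 2) * ‖b i‖) := by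
            refine (norm_sum_le _ _).trans (Finset.sum_le_sum fun i _ => ?_)
            rw [map_smul, norm_smul]
            gcongr
            · exact ((φ _).le_opNorm x).trans (by gcongr; exact hφn _)
            · exact hTb _ _
        _ = b0 * lam ^ (j + 1) * ‖x‖ := by
            rw [← Finset.mul_sum, ← Finset.mul_sum, hb0, hB2]
            ring
    · rw [hε0 k (not_lt.1 hk), mul_zero, norm_zero]
      positivity
  have herr := hrel.norm_err_le hlam ha0nn hb0nn rfl hA hBbd
  have hshift : ‖d.shift‖ ≤ K := by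
    change ‖∑ k ∈ Finset.range M, e (k + 1) * ε k‖ ≤ K
    obtain ⟨M', rfl⟩ : ∃ M', M = M' + 1 := ⟨M - 1, by omega⟩
    rw [Finset.sum_range_succ, he0 (M' + 1) le_rfl, zero_mul, add_zero, Finset.sum_range]
    have e1 : ∑ t : Fin M', e (t + 1) * ε t = ∑ q : Fin M' × Fin N,
        (1 : ℝ) • (φ (⟨q.1, by omega⟩, q.2)).smulRight (y (⟨q.1 + 1, by omega⟩, q.2)) := by
      rw [Fintype.sum_prod_type]
      refine Finset.sum_congr rfl fun t _ => ?_
      ext x
      rw [mul_apply_eq_comp, hε t (by omega), map_sum]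
      simp only [FunLike.coe_sum, Finset.sum_apply, ContinuousLinearMap.smulRight_apply, one_smul]
      refine Finset.sum_congr rfl fun i _ => ?_
      rw [map_smul, he _ (by omega : (t : ℕ) + 1 < M' + 1)]
      congr 1
      simp only [hβb]
      simp
    rw [e1]
    refine hMB (Fin M' × Fin N) (fun q => (⟨q.1, by omega⟩, q.2))
      (fun q => (⟨q.1 + 1, by omega⟩, q.2)) ?_ ?_ (fun _ => 1) (by simp)
    · rintro ⟨t, i⟩ ⟨t', i'⟩ hh
      have h1 := Fin.mk.inj (Prod.mk.inj hh).1
      have h2 := (Prod.mk.inj hh).2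
      exact Prod.ext (Fin.ext h1) h2
    · rintro ⟨t, i⟩ ⟨t', i'⟩ hh
      have h1 := Fin.mk.inj (Prod.mk.inj hh).1
      have h2 := (Prod.mk.inj hh).2
      exact Prod.ext (Fin.ext (by simpa using h1)) h2
  have he0n : ‖d.c • d.e 0‖ ≤ 1 := by
    change ‖c • e 0‖ ≤ 1
    rw [norm_smul, Real.norm_of_nonneg hcpos.le]
    have : ‖e 0‖ ≤ B1 := by
      refine ContinuousLinearMap.opNorm_le_bound _ hB1nn fun x => ?_
      rw [he 0 hMpos, hB1, Finset.sum_mul]
      refine (norm_sum_le _ _).trans (Finset.sum_le_sum fun i _ => ?_)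
      rw [norm_smul]
      calc ‖β i x‖ * ‖y (⟨0, hMpos⟩, i)‖ ≤ (‖β i‖ * ‖x‖) * 1 := by
            gcongr
            · exact (β i).le_opNorm x
            · exact hyn _
        _ = ‖β i‖ * ‖x‖ := mul_one _
    calc c * ‖e 0‖ ≤ c * B1 := by gcongr
      _ ≤ 1 := by
        rw [hc, inv_mul_le_iff₀ (by positivity)]
        linarith
  have herr' : ‖(d.M : ℝ)⁻¹ • d.err‖ ≤ 1 := by
    have hMr : (0 : ℝ) < M := by exact_mod_cast hMpos
    rw [norm_smul, norm_inv, Real.norm_of_nonneg (by positivity)]
    change (M : ℝ)⁻¹ * ‖d.err‖ ≤ 1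
    rw [inv_mul_le_iff₀ hMr, mul_one]
    exact herr.trans hM
  -- choice of η
  set η : ℝ := (‖d.pert‖ + 1)⁻¹ with hη
  have hηpos : 0 < η := by positivity
  have hη1 : η ≤ 1 := by
    rw [hη]
    exact inv_le_one_of_one_le₀ (by linarith [norm_nonneg d.pert])
  have hpert : ‖η • d.pert‖ ≤ 1 := by
    rw [norm_smul, Real.norm_of_nonneg hηpos.le, hη, inv_mul_le_iff₀ (by positivity)]
    linarith
  set R' : E →L[ℝ] E := (d.scale η).R with hR'
  have hRform : P + R' = T + (d.c • d.e 0 + d.w • d.shift - (d.M : ℝ)⁻¹ • d.err + η • d.pert) := by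
    rw [hR', DilData.scale_R]
    change P + (T' + _ + _ - _ + _) = _
    rw [hT']; abel
  have hrel' := hrel.scale η
  refine ⟨P + R', ?_, ?_, ?_, ?_, ?_⟩
  · -- finite rank
    have hεF : ∀ k, FR (d.ε k) := by
      intro k
      change FR (ε k)
      by_cases hk : k < M
      · simp only [ε, dif_pos hk]
        exact FR.sum _ _ fun i _ => FR.smulRight _ _
      · rw [hε0 k (not_lt.1 hk)]; exact FR.zero
    have heF : FR (d.e 0) := by
      rw [← hrel.eB]; exact hBF.mul_right _
    rw [hRform]
    refine hTF.add ((((heF.smul _).add ?_).sub ?_).add ?_)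
    · exact (FR.sum _ _ fun k _ => (hεF k).mul_right _).smul _
    · exact (FR.sum _ _ fun k _ => (hεF k).mul_right _).smul _
    · refine FR.smul ?_ _
      refine (hBF.smul _).add (FR.sum _ _ fun k _ => ?_)
      exact ((hεF k).mul_right _).smul _
  · rw [hRform]
    have hwK : ‖d.w • d.shift‖ ≤ (lam + 1) * K := by
      change ‖(lam + 1) • d.shift‖ ≤ _
      rw [norm_smul, Real.norm_of_nonneg (by positivity)]
      gcongr
    calc ‖T + (d.c • d.e 0 + d.w • d.shift - (d.M : ℝ)⁻¹ • d.err + η • d.pert)‖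
        ≤ ‖T‖ + (‖d.c • d.e 0‖ + ‖d.w • d.shift‖ + ‖(d.M : ℝ)⁻¹ • d.err‖ + ‖η • d.pert‖) := by
          refine (norm_add_le _ _).trans ?_
          gcongr
          refine (norm_add_le _ _).trans ?_
          gcongr
          refine (norm_sub_le _ _).trans ?_
          gcongr
          exact norm_add_le _ _
      _ ≤ lam + (1 + (lam + 1) * K + 1 + 1) := by gcongr
      _ = lam + (lam + 1) * K + 3 := by ring
  · rw [add_mul, hPP, hR', hrel'.R_mul P hBP hεP, add_zero]
  · rw [mul_add, hPP, hR', hrel'.mul_R P hPB hPe, add_zero]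
  · let r : Finset ℝ := insert 0 (insert 1 ((Finset.range (M + 1)).image (d.scale η).δ))
    refine ⟨r, hrel'.annihilates P hPP hPB hBP hPe hεP ?_ r (Finset.mem_insert_self _ _)
      (Finset.mem_insert_of_mem (Finset.mem_insert_self _ _)) ?_⟩
    · intro i _ j _ hij
      change η * (1 / ((i : ℝ) + 2)) = η * (1 / ((j : ℝ) + 2)) at hij
      have h1 := mul_left_cancel₀ hηpos.ne' hij
      have h2 : (i : ℝ) + 2 = (j : ℝ) + 2 := by
        have hi : (0 : ℝ) < (i : ℝ) + 2 := by positivity
        have hj : (0 : ℝ) < (j : ℝ) + 2 := by positivity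
        field_simp at h1
        linarith
      exact_mod_cast (by linarith : (i : ℝ) = j)
    · intro j hj
      exact Finset.mem_insert_of_mem (Finset.mem_insert_of_mem (Finset.mem_image_of_mem _ hj))

end Pool.Agent.Helper36
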