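import Pool.Agent.Helper36.SSSSupply
import Pool.Agent.Helper36.SSSLocal

/-! Symmetric complemented systems can be pushed into the tail. -/

set_option autoImplicit false

open Filter Topology

namespace Pool.Agent.Helper36

variable {E : Type*} [NormedAddCommGroup E] [NormedSpace ℝ E]

/-- permutation bound gives matching bound -/
theorem matchBound_of_perm {ι : Type} [Fintype ι] [DecidableEq ι] {x : ι → E}
    {f : ι → StrongDual ℝ E} {K : ℝ} (hK : 0 ≤ K)
    (h : ∀ (p : Equiv.Perm ι) (e : ι → ℝ), (∀ i, |e i| ≤ 1) →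
      ∀ y : E, ‖∑ i, (e i * f i y) • x (p i)‖ ≤ K * ‖y‖) : MatchBound x f K := by
  classical
  intro κ _ a b ha hb γ hγ
  refine ContinuousLinearMap.opNorm_le_bound _ hK fun y => ?_
  -- the permutation
  let ea : κ ≃ {i // i ∈ Set.range a} := Equiv.ofInjective a ha
  let eb : κ ≃ {i // i ∈ Set.range b} := Equiv.ofInjective b hb
  let p : Equiv.Perm ι := (ea.symm.trans eb).extendSubtype
  have hp : ∀ t, p (a t) = b t := by
    intro t
    have h1 := Equiv.extendSubtype_apply_of_mem (ea.symm.trans eb) (a t) ⟨t, rfl⟩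
    change p (a t) = _ at h1
    rw [h1]
    have h2 : ea.symm ⟨a t, ⟨t, rfl⟩⟩ = t := by
      rw [Equiv.symm_apply_eq]; rfl
    rw [Equiv.trans_apply, h2]; rfl
  let e : ι → ℝ := fun i => if h : i ∈ Set.range a then γ (ea.symm ⟨i, h⟩) else 0
  have he : ∀ t, e (a t) = γ t := by
    intro t
    have h2 : ea.symm ⟨a t, ⟨t, rfl⟩⟩ = t := by
      rw [Equiv.symm_apply_eq]; rfl
    simp only [e]
    rw [dif_pos ⟨t, rfl⟩, h2]
  have he1 : ∀ i, |e i| ≤ 1 := by
    intro i
    simp only [e]
    split_ifs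
    · exact hγ _
    · simp
  have key := h p e he1 y
  have : (∑ t, γ t • (f (a t)).smulRight (x (b t))) y = ∑ i, (e i * f i y) • x (p i) := by
    rw [FunLike.coe_sum, Finset.sum_apply]
    have h3 : ∑ i, (e i * f i y) • x (p i)
        = ∑ i ∈ Finset.univ.image a, (e i * f i y) • x (p i) := by
      symm
      refine Finset.sum_subset (Finset.subset_univ _) fun i _ hi => ?_
      have : e i = 0 := by
        simp only [e]
        rw [dif_neg]
        rintro ⟨t, rfl⟩
        exact hi (Finset.mem_image_of_mem _ (Finset.mem_univ t))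
      rw [this, zero_mul, zero_smul]
    rw [h3, Finset.sum_image (fun s _ t _ hst => ha hst)]
    refine Finset.sum_congr rfl fun t _ => ?_
    rw [he, hp, FunLike.coe_smul, Pi.smul_apply, ContinuousLinearMap.smulRight_apply, smul_smul]
  rw [this]
  exact key

theorem MatchBound.single {ι : Type} {x : ι → E} {f : ι → StrongDual ℝ E} {K : ℝ}
    (h : MatchBound x f K) (a b : ι) : ‖f a‖ * ‖x b‖ ≤ K := by
  have := h Unit (fun _ => a) (fun _ => b) (fun _ _ _ => rfl) (fun _ _ _ => rfl) (fun _ => 1)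
    (by simp)
  simpa [ContinuousLinearMap.norm_smulRight_apply] using this

/-- normalisation -/
theorem normalise {ι : Type} [Fintype ι] [DecidableEq ι] {x : ι → E} {f : ι → StrongDual ℝ E}
    {K : ℝ} (hbi : ∀ i j, f i (x j) = if i = j then 1 else 0) (h : MatchBound x f K) :
    ∃ r : ℝ, r ≠ 0 ∧ (∀ i j, (r • f i) (r⁻¹ • x j) = if i = j then 1 else 0) ∧
      MatchBound (fun i => r⁻¹ • x i) (fun i => r • f i) K ∧ (∀ i, ‖r⁻¹ • x i‖ ≤ 1) ∧
      ∀ i, ‖r • f i‖ ≤ K := by
  classical
  rcases isEmpty_or_nonempty ι with hι | hι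
  · refine ⟨1, one_ne_zero, fun i => isEmptyElim i, ?_, fun i => isEmptyElim i,
      fun i => isEmptyElim i⟩
    simpa using h
  · obtain ⟨i₀, -, hi₀⟩ := Finset.exists_max_image (Finset.univ : Finset ι) (fun i => ‖x i‖)
      Finset.univ_nonempty
    have hx0 : x i₀ ≠ 0 := by
      intro h0
      have := hbi i₀ i₀
      rw [h0, map_zero, if_pos rfl] at this
      exact zero_ne_one this
    have hr : 0 < ‖x i₀‖ := norm_pos_iff.2 hx0
    refine ⟨‖x i₀‖, hr.ne', ?_, ?_, ?_, ?_⟩
    · intro i j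
      rw [FunLike.coe_smul, Pi.smul_apply, map_smul, smul_smul, mul_inv_cancel₀ hr.ne', one_smul,
        hbi]
    · intro κ _ a b ha hb γ hγ
      have := h κ a b ha hb γ hγ
      convert this using 3 with t
      congr 1
      ext y
      simp only [ContinuousLinearMap.smulRight_apply, FunLike.coe_smul, Pi.smul_apply,
        smul_eq_mul, smul_smul]
      congr 1
      field_simp
    · intro i
      rw [norm_smul, norm_inv, norm_norm, inv_mul_le_iff₀ hr, mul_one]
      exact hi₀ i (Finset.mem_univ i)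
    · intro i
      rw [norm_smul, norm_norm, mul_comm]
      exact h.single i i₀

/-- Reindexing. -/
theorem MatchBound.comp {ι ι' : Type} {x : ι → E} {f : ι → StrongDual ℝ E} {K : ℝ}
    (h : MatchBound x f K) (g : ι' → ι) (hg : Function.Injective g) :
    MatchBound (fun i => x (g i)) (fun i => f (g i)) K := fun κ _ a b ha hb γ hγ =>
  h κ (fun t => g (a t)) (fun t => g (b t)) (hg.comp ha) (hg.comp hb) γ hγ

/-- pigeonhole in a bounded subset of a finite dimensional space -/
theorem pigeonhole {d : ℕ} (C δ : ℝ) (hδ : 0 < δ) (m : ℕ) :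
    ∃ n : ℕ, ∀ v : Fin n → (Fin d → ℝ), (∀ i, ‖v i‖ ≤ C) →
      ∃ g : Fin m → Fin n, Function.Injective g ∧ ∀ i j, ‖v (g i) - v (g j)‖ ≤ δ := by
  classical
  have hcomp : TotallyBounded (Metric.closedBall (0 : Fin d → ℝ) C) :=
    (isCompact_closedBall _ _).totallyBounded
  rw [Metric.totallyBounded_iff] at hcomp
  obtain ⟨t, htf, ht⟩ := hcomp (δ / 2) (by positivity)
  lift t to Finset (Fin d → ℝ) using htf
  refine ⟨t.card * m + 1, fun v hv => ?_⟩
  have hv' : ∀ i, ∃ y ∈ t, dist (v i) y < δ / 2 := by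
    intro i
    have := ht (mem_closedBall_zero_iff.2 (hv i))
    simpa using this
  choose c hct hc using hv'
  obtain ⟨y, hyt, hy⟩ := Finset.exists_lt_card_fiber_of_mul_lt_card_of_maps_to
    (s := (Finset.univ : Finset (Fin (t.card * m + 1)))) (t := t) (f := c) (n := m)
    (fun i _ => hct i) (by simp)
  obtain ⟨s', hs', hs'c⟩ := Finset.exists_subset_card_eq hy.le
  let g : Fin m → Fin (t.card * m + 1) := fun i => (s'.equivFinOfCardEq hs'c).symm i
  refine ⟨g, ?_, ?_⟩
  · intro i j hij
    exact (s'.equivFinOfCardEq hs'c).symm.injective (Subtype.ext hij)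
  · intro i j
    have h1 : ∀ i, c (g i) = y := by
      intro i
      have : g i ∈ s' := ((s'.equivFinOfCardEq hs'c).symm i).2
      exact (Finset.mem_filter.1 (hs' this)).2
    have h2 := hc (g i)
    have h3 := hc (g j)
    rw [h1] at h2 h3
    rw [← dist_eq_norm]
    calc dist (v (g i)) (v (g j)) ≤ dist (v (g i)) y + dist (v (g j)) y :=
          dist_triangle_right _ _ _
      _ ≤ δ := by linarith

/-- differences of pairs -/
theorem MatchBound.diff {ι : Type} {x : ι × Bool → E} {f : ι × Bool → StrongDual ℝ E} {K : ℝ}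
    (h : MatchBound x f K) :
    MatchBound (fun i => x (i, true) - x (i, false))
      (fun i => (1 / 2 : ℝ) • (f (i, true) - f (i, false))) K := by
  classical
  intro κ _ a b ha hb γ hγ
  have h1 := h (κ × Bool) (fun q => (a q.1, q.2)) (fun q => (b q.1, q.2))
    (by rintro ⟨s, u⟩ ⟨t, v⟩ hst
        exact Prod.ext (ha (Prod.mk.inj hst).1) (Prod.mk.inj hst).2)
    (by rintro ⟨s, u⟩ ⟨t, v⟩ hst
        exact Prod.ext (hb (Prod.mk.inj hst).1) (Prod.mk.inj hst).2)
    (fun q => γ q.1) (fun q => hγ q.1)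
  have h2 := h (κ × Bool) (fun q => (a q.1, q.2)) (fun q => (b q.1, !q.2))
    (by rintro ⟨s, u⟩ ⟨t, v⟩ hst
        exact Prod.ext (ha (Prod.mk.inj hst).1) (Prod.mk.inj hst).2)
    (by rintro ⟨s, u⟩ ⟨t, v⟩ hst
        refine Prod.ext (hb (Prod.mk.inj hst).1) ?_
        have := (Prod.mk.inj hst).2
        simpa using this)
    (fun q => -γ q.1) (fun q => by rw [abs_neg]; exact hγ q.1)
  have e1 : ∑ t, γ t • ((1 / 2 : ℝ) • (f (a t, true) - f (a t, false))).smulRight
        (x (b t, true) - x (b t, false))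
      = (1 / 2 : ℝ) • (∑ q : κ × Bool, γ q.1 • (f (a q.1, q.2)).smulRight (x (b q.1, q.2)))
        + (1 / 2 : ℝ) • (∑ q : κ × Bool, (-γ q.1) • (f (a q.1, q.2)).smulRight
          (x (b q.1, !q.2))) := by
    rw [Fintype.sum_prod_type, Fintype.sum_prod_type, Finset.smul_sum, Finset.smul_sum,
      ← Finset.sum_add_distrib]
    refine Finset.sum_congr rfl fun t _ => ?_
    simp only [Fintype.sum_bool, Bool.not_true, Bool.not_false]
    ext y
    simp only [ContinuousLinearMap.smulRight_apply, FunLike.coe_smul, Pi.smul_apply,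
      FunLike.coe_add, Pi.add_apply, FunLike.coe_sub, Pi.sub_apply, smul_eq_mul]
    module
  change ‖∑ t, γ t • ((1 / 2 : ℝ) • (f (a t, true) - f (a t, false))).smulRight
        (x (b t, true) - x (b t, false))‖ ≤ K
  rw [e1]
  refine (norm_add_le _ _).trans ?_
  have hh : ‖(1 / 2 : ℝ)‖ = 1 / 2 := by norm_num
  rw [norm_smul, norm_smul, hh]
  linarith

theorem smulRight_sub' (f g : StrongDual ℝ E) (x y : E) :
    f.smulRight x - g.smulRight y = f.smulRight (x - y) + (f - g).smulRight y := by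
  ext z
  simp only [ContinuousLinearMap.smulRight_apply, FunLike.coe_add, Pi.add_apply, FunLike.coe_sub,
    Pi.sub_apply]
  module

/-- small perturbation of a matching bound -/
theorem MatchBound.perturb {ι : Type} [Fintype ι] {x y : ι → E} {f g : ι → StrongDual ℝ E} {K η : ℝ}
    (h : MatchBound x f K) (hη : ∀ i j, ‖g i‖ * ‖y j - x j‖ + ‖g i - f i‖ * ‖x j‖ ≤ η)
    (hη0 : 0 ≤ η) :
    MatchBound y g (K + Fintype.card ι * η) := by
  intro κ _ a b ha hb γ hγ
  have e1 : ∑ t, γ t • (g (a t)).smulRight (y (b t)) = ∑ t, γ t • (f (a t)).smulRight (x (b t))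
      + ∑ t, γ t • ((g (a t)).smulRight (y (b t) - x (b t))
        + (g (a t) - f (a t)).smulRight (x (b t))) := by
    rw [← Finset.sum_add_distrib]
    refine Finset.sum_congr rfl fun t _ => ?_
    rw [← smulRight_sub', ← smul_add]
    congr 1
    abel
  rw [e1]
  refine (norm_add_le _ _).trans (add_le_add (h κ a b ha hb γ hγ) ?_)
  calc ‖∑ t, γ t • ((g (a t)).smulRight (y (b t) - x (b t))
        + (g (a t) - f (a t)).smulRight (x (b t)))‖
      ≤ ∑ _t : κ, η := by
        refine (norm_sum_le _ _).trans (Finset.sum_le_sum fun t _ => ?_)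
        rw [norm_smul]
        have h1 : ‖(g (a t)).smulRight (y (b t) - x (b t))
            + (g (a t) - f (a t)).smulRight (x (b t))‖ ≤ η := by
          refine (norm_add_le _ _).trans ?_
          rw [ContinuousLinearMap.norm_smulRight_apply, ContinuousLinearMap.norm_smulRight_apply]
          exact hη _ _
        calc ‖γ t‖ * ‖(g (a t)).smulRight (y (b t) - x (b t))
            + (g (a t) - f (a t)).smulRight (x (b t))‖ ≤ 1 * η := by
              gcongr
              exact hγ t
          _ = η := one_mul _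
    _ = Fintype.card κ * η := by simp
    _ ≤ Fintype.card ι * η := by
        gcongr
        exact Fintype.card_le_of_injective a ha

/-- exactness: correct an almost annihilating system -/
theorem exact_system {ι : Type} [Fintype ι] [DecidableEq ι] (Q₀ : E →L[ℝ] E) (hQ : Q₀ * Q₀ = Q₀)
    {K : ℝ} (hK : 0 ≤ K) :
    ∃ δ : ℝ, 0 < δ ∧ ∀ (x : ι → E) (f : ι → StrongDual ℝ E),
      (∀ i j, f i (x j) = if i = j then 1 else 0) → MatchBound x f K → (∀ i, ‖x i‖ ≤ 2) →
      (∀ i, ‖f i‖ ≤ K) → (∀ i, ‖Q₀ (x i)‖ ≤ δ) → (∀ i, ‖f i ∘L Q₀‖ ≤ δ) →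
      ∃ (y : ι → E) (φ : ι → StrongDual ℝ E),
        (∀ i j, φ i (y j) = if i = j then 1 else 0) ∧ (∀ i, Q₀ (y i) = 0) ∧
        (∀ i x, φ i (Q₀ x) = 0) ∧ MatchBound y φ (K + 1) := by
  classical
  set m : ℝ := (Fintype.card ι : ℝ) with hm
  have hm0 : 0 ≤ m := by positivity
  -- ‖y - x‖ ≤ D δ
  set D : ℝ := 1 + m * (2 * m * K) * 3 with hD
  have hD0 : 0 ≤ D := by positivity
  set Z : ℝ := m * ((K + 1) * D + 2) with hZ
  have hZ0 : 0 ≤ Z := by positivity
  refine ⟨min 1 (min (1 / (2 * (m * K + 1))) (1 / (Z + 1))), by positivity, ?_⟩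
  intro x f hbi hMB hx hf hQx hfQ
  set δ : ℝ := min 1 (min (1 / (2 * (m * K + 1))) (1 / (Z + 1))) with hδ
  have hδpos : 0 < δ := by positivity
  have hδ1 : δ ≤ 1 := min_le_left _ _
  have hδ2 : m * K * δ ≤ 1 / 2 := by
    have : δ ≤ 1 / (2 * (m * K + 1)) := (min_le_right _ _).trans (min_le_left _ _)
    calc m * K * δ ≤ m * K * (1 / (2 * (m * K + 1))) := by gcongr
      _ ≤ (m * K + 1) * (1 / (2 * (m * K + 1))) := by gcongr; linarith
      _ = 1 / 2 := by field_simp
  have hδ3 : Z * δ ≤ 1 := by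
    have : δ ≤ 1 / (Z + 1) := (min_le_right _ _).trans (min_le_right _ _)
    calc Z * δ ≤ (Z + 1) * (1 / (Z + 1)) := by gcongr; linarith
      _ = 1 := by field_simp
  have hcore : ∀ (v : ι → ℝ) (k : ι), |f k (Q₀ (∑ j, v j • x j))| ≤ m * K * δ * ‖v‖ := by
    intro v k
    rw [map_sum, map_sum]
    calc |∑ j, f k (Q₀ (v j • x j))| ≤ ∑ _j : ι, K * δ * ‖v‖ := by
          refine (Finset.abs_sum_le_sum_abs _ _).trans (Finset.sum_le_sum fun j _ => ?_)
          rw [map_smul, map_smul, smul_eq_mul, abs_mul]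
          calc |v j| * |f k (Q₀ (x j))| ≤ ‖v‖ * (K * δ) := by
                gcongr
                · exact norm_le_pi_norm v j
                · exact ((f k).le_opNorm _).trans (by gcongr; exacts [hf k, hQx j])
            _ = K * δ * ‖v‖ := by ring
      _ = m * K * δ * ‖v‖ := by rw [Finset.sum_const, Finset.card_univ, nsmul_eq_mul]; ring
  let L : (ι → ℝ) →ₗ[ℝ] (ι → ℝ) :=
    { toFun := fun v k => f k (∑ j, v j • x j - Q₀ (∑ j, v j • x j))
      map_add' := by
        intro v w
        ext k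
        simp only [Pi.add_apply, add_smul, Finset.sum_add_distrib, map_add, map_sub]
        ring
      map_smul' := by
        intro c v
        ext k
        simp only [Pi.smul_apply, smul_eq_mul, mul_smul, ← Finset.smul_sum, map_smul, map_sub,
          RingHom.id_apply]
        ring }
  have hL : ∀ v k, L v k = v k - f k (Q₀ (∑ j, v j • x j)) := by
    intro v k
    change f k (∑ j, v j • x j - Q₀ (∑ j, v j • x j)) = _
    rw [map_sub]
    congr 1
    rw [map_sum]
    simp only [map_smul, hbi, smul_eq_mul, mul_ite, mul_one, mul_zero]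
    simp
  have hLv : ∀ v, ‖L v - v‖ ≤ 1 / 2 * ‖v‖ := by
    intro v
    rw [pi_norm_le_iff_of_nonneg (by positivity)]
    intro k
    rw [Pi.sub_apply, hL]
    have : v k - f k (Q₀ (∑ j, v j • x j)) - v k = - f k (Q₀ (∑ j, v j • x j)) := by ring
    rw [this, norm_neg]
    exact (hcore v k).trans (by gcongr)
  have hinj : Function.Injective L := by
    rw [injective_iff_map_eq_zero]
    intro v hv
    have := hLv v
    rw [hv, zero_sub, norm_neg] at this
    have h0 : ‖v‖ ≤ 0 := by linarith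
    exact norm_le_zero_iff.1 h0
  have hsurj : Function.Surjective L := LinearMap.injective_iff_surjective.1 hinj
  choose v hv using fun l : ι => hsurj (Pi.single l 1)
  have hvn : ∀ l, ‖v l‖ ≤ 2 := by
    intro l
    have h1 := hLv (v l)
    have h2 : ‖v l‖ ≤ ‖L (v l)‖ + ‖L (v l) - v l‖ := by
      calc ‖v l‖ = ‖L (v l) - (L (v l) - v l)‖ := by congr 1; abel
        _ ≤ _ := norm_sub_le _ _
    have h3 : ‖L (v l)‖ ≤ 1 := by
      rw [hv, Pi.norm_single]; simp
    linarith
  have hvd : ∀ l k, |v l k - (Pi.single l 1 : ι → ℝ) k| ≤ 2 * m * K * δ := by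
    intro l k
    have h1 := hL (v l) k
    rw [hv] at h1
    have h2 : v l k - (Pi.single l 1 : ι → ℝ) k = f k (Q₀ (∑ j, v l j • x j)) := by
      rw [h1]; ring
    rw [h2]
    calc _ ≤ m * K * δ * ‖v l‖ := hcore _ _
      _ ≤ m * K * δ * 2 := by gcongr; exact hvn l
      _ = _ := by ring
  let y : ι → E := fun l => (∑ j, v l j • x j) - Q₀ (∑ j, v l j • x j)
  let φ : ι → StrongDual ℝ E := fun k => f k - f k ∘L Q₀
  have hQQ : ∀ z, Q₀ (Q₀ z) = Q₀ z := fun z => congrArg (fun S : E →L[ℝ] E => S z) hQ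
  have hQy : ∀ l, Q₀ (y l) = 0 := by
    intro l
    simp only [y]
    rw [map_sub, hQQ, sub_self]
  have hφQ : ∀ k z, φ k (Q₀ z) = 0 := by
    intro k z
    simp only [φ]
    rw [FunLike.coe_sub, Pi.sub_apply, ContinuousLinearMap.comp_apply, hQQ, sub_self]
  have hφy : ∀ k l, φ k (y l) = if k = l then 1 else 0 := by
    intro k l
    have h1 : φ k (y l) = f k (y l) := by
      simp only [φ]
      rw [FunLike.coe_sub, Pi.sub_apply, ContinuousLinearMap.comp_apply, hQy, map_zero, sub_zero]
    rw [h1]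
    have h2 : f k (y l) = L (v l) k := rfl
    rw [h2, hv, Pi.single_apply]
  -- estimates
  have hyx : ∀ l, ‖y l - x l‖ ≤ D * δ := by
    intro l
    have e1 : y l - x l = - Q₀ (x l) + ∑ j, (v l j - (Pi.single l 1 : ι → ℝ) j) •
        (x j - Q₀ (x j)) := by
      have e2 : ∑ j, (v l j - (Pi.single l 1 : ι → ℝ) j) • (x j - Q₀ (x j))
          = y l - (x l - Q₀ (x l)) := by
        simp only [sub_smul, Finset.sum_sub_distrib, y, map_sum, map_smul, smul_sub]
        have e3 : ∑ j, (Pi.single l 1 : ι → ℝ) j • x j = x l := by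
          simp [Pi.single_apply]
        have e4 : ∑ j, (Pi.single l 1 : ι → ℝ) j • Q₀ (x j) = Q₀ (x l) := by
          simp [Pi.single_apply]
        rw [e3, e4]
        abel
      rw [e2]; abel
    rw [e1]
    calc ‖- Q₀ (x l) + ∑ j, (v l j - (Pi.single l 1 : ι → ℝ) j) • (x j - Q₀ (x j))‖
        ≤ ‖Q₀ (x l)‖ + ∑ _j : ι, (2 * m * K * δ) * 3 := by
          refine (norm_add_le _ _).trans ?_
          rw [norm_neg]
          gcongr
          refine (norm_sum_le _ _).trans (Finset.sum_le_sum fun j _ => ?_)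
          rw [norm_smul]
          gcongr
          · exact hvd l j
          · refine (norm_sub_le _ _).trans ?_
            have := hx j
            have := hQx j
            linarith
      _ ≤ δ + m * ((2 * m * K * δ) * 3) := by
          rw [Finset.sum_const, Finset.card_univ, nsmul_eq_mul]
          gcongr
          exact hQx l
      _ = D * δ := by rw [hD]; ring
  have hφf : ∀ k, ‖φ k - f k‖ ≤ δ := by
    intro k
    have : φ k - f k = - (f k ∘L Q₀) := by simp only [φ]; abel
    rw [this, norm_neg]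
    exact hfQ k
  have hφn : ∀ k, ‖φ k‖ ≤ K + 1 := by
    intro k
    have : φ k = f k - f k ∘L Q₀ := rfl
    rw [this]
    exact (norm_sub_le _ _).trans (add_le_add (hf k) ((hfQ k).trans hδ1))
  refine ⟨y, φ, hφy, hQy, hφQ, ?_⟩
  have := hMB.perturb (y := y) (g := φ) (η := ((K + 1) * D + 2) * δ) ?_ (by positivity)
  · intro κ _ a b ha hb γ hγ
    refine (this κ a b ha hb γ hγ).trans ?_
    have : (Fintype.card ι : ℝ) * (((K + 1) * D + 2) * δ) = Z * δ := by rw [hZ]; ring
    rw [this]
    linarith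
  · intro i j
    calc ‖φ i‖ * ‖y j - x j‖ + ‖φ i - f i‖ * ‖x j‖ ≤ (K + 1) * (D * δ) + δ * 2 := by
          gcongr
          exacts [hφn i, hyx j, hφf i, hx j]
      _ = ((K + 1) * D + 2) * δ := by ring

theorem tailProp_of_symmetric (h : ContainsComplementedSymmetric E) :
    ∃ K : ℝ, 0 ≤ K ∧ TailProp E K := by
  classical
  obtain ⟨K0, hK0⟩ := h
  set K : ℝ := |K0| with hKdef
  have hK : 0 ≤ K := abs_nonneg _
  have hsys : ∀ n : ℕ, ∃ (x : Fin n → E) (f : Fin n → StrongDual ℝ E),
      (∀ i j, f i (x j) = if i = j then 1 else 0) ∧ MatchBound x f K ∧ (∀ i, ‖x i‖ ≤ 1) ∧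
      ∀ i, ‖f i‖ ≤ K := by
    intro n
    obtain ⟨x, f, hbi, hp⟩ := hK0 n
    have hMB : MatchBound x f K := matchBound_of_perm hK fun p e he y =>
      (hp p e he y).trans (by gcongr; exact le_abs_self K0)
    obtain ⟨r, -, h1, h2, h3, h4⟩ := normalise hbi hMB
    exact ⟨_, _, h1, h2, h3, h4⟩
  refine ⟨K + 1, by positivity, ?_⟩
  intro Q₀ hQQ hQF ι _ _
  obtain ⟨δ, hδ, hex⟩ := exact_system (ι := ι) Q₀ hQQ hK
  obtain ⟨N0, β, b, -, -, hrep⟩ := hQF.exists_rep
  set C1 : ℝ := ∑ r, ‖b r‖ with hC1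
  set C2 : ℝ := ∑ r, ‖β r‖ with hC2
  have hC1nn : 0 ≤ C1 := by rw [hC1]; exact Finset.sum_nonneg fun j _ => by positivity
  have hC2nn : 0 ≤ C2 := by rw [hC2]; exact Finset.sum_nonneg fun j _ => by positivity
  set δ' : ℝ := δ / (C1 + C2 + 1) with hδ'
  have hδ'pos : 0 < δ' := by positivity
  have hδC1 : δ' * C1 ≤ δ := by
    rw [hδ', div_mul_eq_mul_div, div_le_iff₀ (by positivity)]
    gcongr; linarith
  have hδC2 : δ' * C2 ≤ δ := by
    rw [hδ', div_mul_eq_mul_div, div_le_iff₀ (by positivity)]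
    gcongr; linarith
  obtain ⟨n, hn⟩ := pigeonhole (d := N0 + N0) (C2 + K * C1) δ' hδ'pos
    (Fintype.card (ι × Bool))
  obtain ⟨x, f, hbi, hMB, hx, hf⟩ := hsys n
  let v : Fin n → (Fin (N0 + N0) → ℝ) := fun i =>
    Fin.append (fun r => β r (x i)) (fun r => f i (b r))
  have hv : ∀ i, ‖v i‖ ≤ C2 + K * C1 := by
    intro i
    rw [pi_norm_le_iff_of_nonneg (by positivity)]
    intro r
    refine Fin.addCases (fun r => ?_) (fun r => ?_) r
    · simp only [v, Fin.append_left]
      calc ‖β r (x i)‖ ≤ ‖β r‖ * ‖x i‖ := (β r).le_opNorm _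
        _ ≤ ‖β r‖ * 1 := by gcongr; exact hx i
        _ = ‖β r‖ := mul_one _
        _ ≤ C2 := Finset.single_le_sum (f := fun r => ‖β r‖) (fun j _ => norm_nonneg _)
            (Finset.mem_univ r)
        _ ≤ C2 + K * C1 := by linarith [mul_nonneg hK hC1nn]
    · simp only [v, Fin.append_right]
      calc ‖f i (b r)‖ ≤ ‖f i‖ * ‖b r‖ := (f i).le_opNorm _
        _ ≤ K * C1 := by
            gcongr
            · exact hf i
            · exact Finset.single_le_sum (f := fun r => ‖b r‖) (fun j _ => norm_nonneg _)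
                (Finset.mem_univ r)
        _ ≤ C2 + K * C1 := by linarith
  obtain ⟨g, hg, hgd⟩ := hn v hv
  let q : ι × Bool → Fin n := fun k => g (Fintype.equivFin (ι × Bool) k)
  have hq : Function.Injective q := hg.comp (Fintype.equivFin (ι × Bool)).injective
  have hqd : ∀ k l r, |v (q k) r - v (q l) r| ≤ δ' := fun k l r =>
    (norm_le_pi_norm (v (q k) - v (q l)) r).trans (hgd _ _)
  have hMB' := (hMB.comp q hq).diff
  have a1 : ∀ i j : ι, ((1 / 2 : ℝ) • (f (q (i, true)) - f (q (i, false))))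
      (x (q (j, true)) - x (q (j, false))) = if i = j then 1 else 0 := by
    intro i j
    simp only [FunLike.coe_smul, Pi.smul_apply, FunLike.coe_sub, Pi.sub_apply, map_sub, hbi,
      smul_eq_mul, hq.eq_iff, Prod.mk.injEq]
    by_cases hij : i = j
    · simp [hij]
      norm_num
    · simp [hij]
  have a2 : ∀ i : ι, ‖x (q (i, true)) - x (q (i, false))‖ ≤ 2 := by
    intro i
    calc ‖x (q (i, true)) - x (q (i, false))‖ ≤ ‖x (q (i, true))‖ + ‖x (q (i, false))‖ :=
          norm_sub_le _ _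
      _ ≤ 2 := by linarith [hx (q (i, true)), hx (q (i, false))]
  have a3 : ∀ i : ι, ‖(1 / 2 : ℝ) • (f (q (i, true)) - f (q (i, false)))‖ ≤ K := by
    intro i
    have hh : ‖(1 / 2 : ℝ)‖ = 1 / 2 := by norm_num
    rw [norm_smul, hh]
    have := norm_sub_le (f (q (i, true))) (f (q (i, false)))
    linarith [hf (q (i, true)), hf (q (i, false))]
  have a4 : ∀ i : ι, ‖Q₀ (x (q (i, true)) - x (q (i, false)))‖ ≤ δ := by
    intro i
    rw [hrep]
    calc ‖∑ r, β r (x (q (i, true)) - x (q (i, false))) • b r‖ ≤ ∑ r, δ' * ‖b r‖ := by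
          refine (norm_sum_le _ _).trans (Finset.sum_le_sum fun r _ => ?_)
          rw [norm_smul]
          gcongr
          have := hqd (i, true) (i, false) (Fin.castAdd N0 r)
          simp only [v, Fin.append_left] at this
          rw [map_sub]
          exact this
      _ = δ' * C1 := by rw [hC1, Finset.mul_sum]
      _ ≤ δ := hδC1
  have a5 : ∀ i : ι, ‖((1 / 2 : ℝ) • (f (q (i, true)) - f (q (i, false)))) ∘L Q₀‖ ≤ δ := by
    intro i
    refine ContinuousLinearMap.opNorm_le_bound _ hδ.le fun z => ?_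
    rw [ContinuousLinearMap.comp_apply, hrep, map_sum]
    have hd : ∀ r, |((1 / 2 : ℝ) • (f (q (i, true)) - f (q (i, false)))) (b r)| ≤ δ' := by
      intro r
      have := hqd (i, true) (i, false) (Fin.natAdd N0 r)
      simp only [v, Fin.append_right] at this
      rw [FunLike.coe_smul, Pi.smul_apply, FunLike.coe_sub, Pi.sub_apply, smul_eq_mul, abs_mul]
      have hh : |(1 / 2 : ℝ)| = 1 / 2 := by norm_num
      rw [hh]
      have h0 := abs_nonneg (f (q (i, true)) (b r) - f (q (i, false)) (b r))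
      linarith
    calc ‖∑ r, ((1 / 2 : ℝ) • (f (q (i, true)) - f (q (i, false)))) (β r z • b r)‖
        ≤ ∑ r, (‖β r‖ * ‖z‖) * δ' := by
          refine (norm_sum_le _ _).trans (Finset.sum_le_sum fun r _ => ?_)
          rw [map_smul, norm_smul]
          gcongr
          · exact (β r).le_opNorm z
          · exact hd r
      _ = δ' * C2 * ‖z‖ := by
          rw [hC2, ← Finset.sum_mul, ← Finset.sum_mul]; ring
      _ ≤ δ * ‖z‖ := by gcongr
  obtain ⟨y, φ, h1, h2, h3, h4⟩ := hex (fun i => x (q (i, true)) - x (q (i, false)))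
    (fun i => (1 / 2 : ℝ) • (f (q (i, true)) - f (q (i, false)))) a1 hMB' a2 a3 a4 a5
  obtain ⟨r, hr, h5, h6, h7, h8⟩ := normalise h1 h4
  refine ⟨_, _, h5, ?_, ?_, h6, h7, h8⟩
  · intro i
    rw [map_smul, h2, smul_zero]
  · intro i z
    rw [FunLike.coe_smul, Pi.smul_apply, h3, smul_zero]

theorem not_finiteDimensional_of_tailProp {K : ℝ} (h : TailProp E K) :
    ¬ FiniteDimensional ℝ E := by
  intro hfd
  obtain ⟨y, φ, hbi, -⟩ := h 0 (by simp) FR.zero (Fin (Module.finrank ℝ E + 1))
  have hli : LinearIndependent ℝ y := by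
    rw [Fintype.linearIndependent_iff]
    intro c hc i
    have := congrArg (φ i) hc
    rw [map_sum, map_zero] at this
    simpa [hbi] using this
  have := hli.fintype_card_le_finrank
  simp at this

/-- From spaces containing the `ℓ_∞^n` uniformly. -/
theorem symmetric_of_linfty (h : ContainsLinftyUniformly E) : ContainsComplementedSymmetric E := by
  classical
  obtain ⟨K0, hK0⟩ := h
  refine ⟨|K0| * |K0|, fun n => ?_⟩
  obtain ⟨z, hz⟩ := hK0 n
  have hz1 : ∀ a : Fin n → ℝ, ‖∑ i, a i • z i‖ ≤ |K0| * ‖a‖ := fun a =>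
    (hz a).1.trans (by gcongr; exact le_abs_self _)
  have hz2 : ∀ a : Fin n → ℝ, ‖a‖ ≤ |K0| * ‖∑ i, a i • z i‖ := fun a =>
    (hz a).2.trans (by gcongr; exact le_abs_self _)
  let Θ : (Fin n → ℝ) →ₗ[ℝ] E :=
    { toFun := fun a => ∑ i, a i • z i
      map_add' := by intro a b; simp [add_smul, Finset.sum_add_distrib]
      map_smul' := by intro c a; simp [Finset.smul_sum, smul_smul] }
  have hΘ : ∀ a, Θ a = ∑ i, a i • z i := fun a => rfl
  have hex : ∀ i : Fin n, ∃ ψ : StrongDual ℝ E, ‖ψ‖ ≤ |K0| ∧ ∀ a, ψ (Θ a) = a i := by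
    intro i
    obtain ⟨ψ, h1, h2⟩ := extend_functional Θ (LinearMap.proj i) |K0| (abs_nonneg _)
      (fun a => by
        rw [hΘ]
        exact (norm_le_pi_norm a i).trans (hz2 a))
    exact ⟨ψ, h1, h2⟩
  choose f hf1 hf2 using hex
  refine ⟨z, f, ?_, ?_⟩
  · intro i j
    have h1 := hf2 i (Pi.single j 1)
    have h2 : Θ (Pi.single j 1) = z j := by
      rw [hΘ]; simp [Pi.single_apply]
    rw [h2] at h1
    rw [h1, Pi.single_apply]
  · intro p e he y
    have h1 : ∑ i, (e i * f i y) • z (p i)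
        = ∑ j, (fun j => e (p.symm j) * f (p.symm j) y) j • z j := by
      rw [← Equiv.sum_comp p (fun j => (fun j => e (p.symm j) * f (p.symm j) y) j • z j)]
      simp
    rw [h1]
    refine (hz1 _).trans ?_
    rw [mul_assoc]
    gcongr
    rw [pi_norm_le_iff_of_nonneg (by positivity)]
    intro j
    rw [norm_mul]
    calc ‖e (p.symm j)‖ * ‖f (p.symm j) y‖ ≤ 1 * (|K0| * ‖y‖) := by
          gcongr
          · exact he _
          · exact ((f _).le_opNorm y).trans (by gcongr; exact hf1 _)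
      _ = |K0| * ‖y‖ := one_mul _

/-- From spaces whose dual contains the `ℓ_∞^n` uniformly. -/
theorem symmetric_of_dual_linfty (h : ContainsLinftyUniformly (StrongDual ℝ E)) :
    ContainsComplementedSymmetric E := by
  classical
  obtain ⟨K0, hK0⟩ := h
  set K : ℝ := |K0| with hKdef
  have hK : 0 ≤ K := abs_nonneg _
  refine ⟨(K + 1) * K, fun n => ?_⟩
  obtain ⟨g, hg⟩ := hK0 n
  have hg1 : ∀ a : Fin n → ℝ, ‖∑ i, a i • g i‖ ≤ K * ‖a‖ := fun a =>
    (hg a).1.trans (by gcongr; exact le_abs_self _)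
  have hg2 : ∀ a : Fin n → ℝ, ‖a‖ ≤ K * ‖∑ i, a i • g i‖ := fun a =>
    (hg a).2.trans (by gcongr; exact le_abs_self _)
  have hli : LinearIndependent ℝ g := by
    rw [Fintype.linearIndependent_iff]
    intro c hc i
    have h1 := hg2 c
    rw [hc, norm_zero, mul_zero] at h1
    exact congrFun (norm_le_zero_iff.1 h1) i
  obtain ⟨b, hb⟩ := exists_dual_vectors g hli
  set B : ℝ := ∑ j, ‖b j‖ with hB
  have hBnn : 0 ≤ B := by rw [hB]; exact Finset.sum_nonneg fun j _ => by positivity
  -- the image of the ball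
  let G : E →L[ℝ] (Fin n → ℝ) := ContinuousLinearMap.pi g
  have hGa : ∀ x i, G x i = g i x := fun x i => rfl
  have hclo : ∀ i : Fin n, (Pi.single i 1 : Fin n → ℝ) ∈ closure (G '' Metric.closedBall 0 K) := by
    intro i
    by_contra hne
    have hconv : Convex ℝ (closure (G '' Metric.closedBall 0 K)) :=
      ((convex_closedBall (0 : E) K).is_linear_image G.toLinearMap.isLinear).closure
    obtain ⟨ℓ, u, h1, h2⟩ := geometric_hahn_banach_closed_point hconv isClosed_closure hne
    set a : Fin n → ℝ := fun j => ℓ (Pi.single j 1) with ha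
    have hℓ : ∀ v : Fin n → ℝ, ℓ v = ∑ j, v j * a j := by
      intro v
      conv_lhs => rw [← Finset.univ_sum_single v]
      rw [map_sum]
      refine Finset.sum_congr rfl fun j _ => ?_
      rw [ha]
      have : (Pi.single j (v j) : Fin n → ℝ) = v j • Pi.single j 1 := by
        rw [← Pi.single_smul]; simp
      rw [this, map_smul, smul_eq_mul]
    have h3 : ∀ x : E, ‖x‖ ≤ K → (∑ j, a j • g j) x < u := by
      intro x hx
      have := h1 (G x) (subset_closure ⟨x, by simpa using hx, rfl⟩)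
      rw [hℓ] at this
      rw [FunLike.coe_sum, Finset.sum_apply]
      refine lt_of_eq_of_lt (Finset.sum_congr rfl fun j _ => ?_) this
      rw [FunLike.coe_smul, Pi.smul_apply, smul_eq_mul, hGa, mul_comm]
    have h4 : ‖(∑ j, a j • g j : StrongDual ℝ E)‖ * K ≤ u := by
      have hu : 0 ≤ u := by
        have := h3 0 (by simpa using hK)
        rw [map_zero] at this
        exact this.le
      rcases hK.eq_or_lt with h0 | hpos
      · rw [← h0, mul_zero]; exact hu
      · rw [← le_div_iff₀ hpos]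
        refine ContinuousLinearMap.opNorm_le_of_unit_norm (by positivity) ?_
        intro x hx
        rw [le_div_iff₀ hpos, Real.norm_eq_abs]
        have h5 : |(∑ j, a j • g j : StrongDual ℝ E) x| * K
            = |(∑ j, a j • g j : StrongDual ℝ E) (K • x)| := by
          rw [map_smul, smul_eq_mul, abs_mul, abs_of_nonneg hK, mul_comm]
        rw [h5, abs_le]
        have hn : ‖K • x‖ ≤ K := by rw [norm_smul, hx, Real.norm_of_nonneg hK, mul_one]
        constructor
        · have := h3 (-(K • x)) (by rw [norm_neg]; exact hn)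
          rw [map_neg] at this
          linarith
        · exact (h3 _ hn).le
    have h6 : a i ≤ ‖a‖ := (le_abs_self _).trans (norm_le_pi_norm a i)
    have h7 : u < a i := h2
    have h8 := hg2 a
    linarith
  have hex : ∀ i : Fin n, ∃ x : E, ‖x‖ ≤ K + 1 ∧ ∀ j, g j x = if j = i then 1 else 0 := by
    intro i
    obtain ⟨v, ⟨x, hx, rfl⟩, hv⟩ := Metric.mem_closure_iff.1 (hclo i) (1 / (B + 1)) (by positivity)
    rw [dist_comm, dist_eq_norm] at hv
    have hx' : ‖x‖ ≤ K := by simpa using hx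
    refine ⟨x - ∑ j, (G x - (Pi.single i 1 : Fin n → ℝ)) j • b j, ?_, ?_⟩
    · calc ‖x - ∑ j, (G x - (Pi.single i 1 : Fin n → ℝ)) j • b j‖
          ≤ ‖x‖ + ∑ j, (1 / (B + 1)) * ‖b j‖ := by
            refine (norm_sub_le _ _).trans ?_
            gcongr
            refine (norm_sum_le _ _).trans (Finset.sum_le_sum fun j _ => ?_)
            rw [norm_smul]
            gcongr
            exact (norm_le_pi_norm _ j).trans hv.le
        _ = ‖x‖ + B / (B + 1) := by rw [← Finset.mul_sum, hB]; ring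
        _ ≤ K + 1 := by
            gcongr
            rw [div_le_one (by positivity)]
            linarith
    · intro j
      rw [map_sub, map_sum]
      simp only [map_smul, hb, smul_eq_mul, mul_ite, mul_one, mul_zero]
      simp [hGa, Pi.single_apply]
  choose x hx hgx using hex
  refine ⟨x, g, fun i j => hgx j i, ?_⟩
  intro p e he y
  have h1 : ∑ i, |g i y| ≤ K * ‖y‖ := by
    have h2 : ∑ i, |g i y| = (∑ i, (SignType.sign (g i y) : ℝ) • g i) y := by
      rw [FunLike.coe_sum, Finset.sum_apply]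
      refine Finset.sum_congr rfl fun i _ => ?_
      rw [FunLike.coe_smul, Pi.smul_apply, smul_eq_mul, sign_mul_self]
    rw [h2]
    refine (le_abs_self _).trans (((∑ i, (SignType.sign (g i y) : ℝ) • g i :
      StrongDual ℝ E).le_opNorm y).trans ?_)
    gcongr
    refine (hg1 _).trans ?_
    have : ‖(fun i => (SignType.sign (g i y) : ℝ))‖ ≤ 1 := by
      rw [pi_norm_le_iff_of_nonneg zero_le_one]
      intro i
      rcases (SignType.sign (g i y)).trichotomy with h | h | h <;> simp [h]
    calc K * ‖(fun i => (SignType.sign (g i y) : ℝ))‖ ≤ K * 1 := by gcongr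
      _ = K := mul_one _
  calc ‖∑ i, (e i * g i y) • x (p i)‖ ≤ ∑ i, |g i y| * (K + 1) := by
        refine (norm_sum_le _ _).trans (Finset.sum_le_sum fun i _ => ?_)
        rw [norm_smul, norm_mul]
        gcongr
        · calc ‖e i‖ * ‖g i y‖ ≤ 1 * |g i y| := by gcongr; exact he i; exact le_rfl
            _ = |g i y| := one_mul _
        · exact hx _
    _ = (K + 1) * ∑ i, |g i y| := by rw [← Finset.sum_mul, mul_comm]
    _ ≤ (K + 1) * (K * ‖y‖) := by gcongr
    _ = (K + 1) * K * ‖y‖ := by ring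

end Pool.Agent.Helper36
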